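import Mathlib

set_option autoImplicit false
set_option linter.unusedSectionVars false

/-!
Kneser's addition theorem for finite abelian groups, after DeVos' short proof.
-/

namespace Pool.Agent.H43.Kneser

open Finset
open scoped Pointwise

universe u

section Basic

variable {G : Type u} [AddCommGroup G] [Fintype G] [DecidableEq G]

/-- The (translation) stabiliser of a finite set. -/
def stb (A : Finset G) : AddSubgroup G where
  carrier := {g | ∀ a, g + a ∈ A ↔ a ∈ A}
  zero_mem' := by intro a; simp
  add_mem' := by
    intro g h hg hh a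
    rw [add_assoc, hg, hh]
  neg_mem' := by
    intro g hg a
    rw [← hg (-g + a)]
    simp

theorem mem_stb {A : Finset G} {g : G} : g ∈ stb A ↔ ∀ a, g + a ∈ A ↔ a ∈ A := Iff.rfl

theorem mem_stb_of_subset {A : Finset G} {g : G} (h : ∀ a ∈ A, g + a ∈ A) : g ∈ stb A := by
  intro a
  refine ⟨fun ha => ?_, fun ha => h a ha⟩
  have hinj : Function.Injective (fun x : G => g + x) := add_right_injective g
  have hsub : A.image (fun x => g + x) ⊆ A := by
    intro x hx
    obtain ⟨y, hy, rfl⟩ := Finset.mem_image.mp hx
    exact h y hy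
  have heq : A.image (fun x => g + x) = A :=
    Finset.eq_of_subset_of_card_le hsub (by rw [Finset.card_image_of_injective _ hinj])
  rw [← heq] at ha
  obtain ⟨y, hy, hya⟩ := Finset.mem_image.mp ha
  have : y = a := hinj hya
  rwa [← this]

/-- `A + H` as a finite set. -/
noncomputable def thick (H : AddSubgroup G) (A : Finset G) : Finset G := by
  classical
  exact Finset.univ.filter (fun x => ∃ a ∈ A, x - a ∈ H)

theorem mem_thick {H : AddSubgroup G} {A : Finset G} {x : G} :
    x ∈ thick H A ↔ ∃ a ∈ A, x - a ∈ H := by
  classical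
  simp [thick]

theorem subset_thick (H : AddSubgroup G) (A : Finset G) : A ⊆ thick H A := by
  intro x hx
  exact mem_thick.mpr ⟨x, hx, by simp⟩

theorem thick_mono {H K : AddSubgroup G} (h : H ≤ K) {A B : Finset G} (hAB : A ⊆ B) :
    thick H A ⊆ thick K B := by
  intro x hx
  obtain ⟨a, ha, hxa⟩ := mem_thick.mp hx
  exact mem_thick.mpr ⟨a, hAB ha, h hxa⟩

theorem thick_bot (A : Finset G) : thick ⊥ A = A := by
  ext x
  rw [mem_thick]
  constructor
  · rintro ⟨a, ha, h⟩
    rw [AddSubgroup.mem_bot, sub_eq_zero] at h
    rwa [h]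
  · intro hx
    exact ⟨x, hx, by simp⟩

/-- Fibres of the quotient map have the size of the subgroup. -/
theorem card_fibre (H : AddSubgroup G) [DecidableEq (G ⧸ H)] (q : G ⧸ H) :
    (Finset.univ.filter (fun x : G => (QuotientAddGroup.mk x : G ⧸ H) = q)).card = Nat.card H := by
  classical
  obtain ⟨x0, rfl⟩ := QuotientAddGroup.mk_surjective q
  have : (Finset.univ.filter (fun x : G => (QuotientAddGroup.mk x : G ⧸ H) =
      QuotientAddGroup.mk x0)) = (Finset.univ.filter (fun x : G => x ∈ H)).image (fun h => x0 + h) := by
    ext x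
    simp only [Finset.mem_filter, Finset.mem_univ, true_and, Finset.mem_image]
    constructor
    · intro h
      refine ⟨-x0 + x, ?_, by simp⟩
      exact (QuotientAddGroup.eq).mp h.symm
    · rintro ⟨h, hh, rfl⟩
      symm
      rw [QuotientAddGroup.eq]
      simpa using hh
  rw [this, Finset.card_image_of_injective _ (add_right_injective x0), Nat.card_eq_fintype_card,
    Fintype.card_subtype]

theorem card_thick (H : AddSubgroup G) [DecidableEq (G ⧸ H)] (A : Finset G) :
    (thick H A).card = (A.image (fun x => (QuotientAddGroup.mk x : G ⧸ H))).card * Nat.card H := by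
  classical
  rw [Finset.card_eq_sum_card_fiberwise (f := fun x => (QuotientAddGroup.mk x : G ⧸ H))
    (t := A.image (fun x => (QuotientAddGroup.mk x : G ⧸ H)))]
  · rw [Finset.sum_const_nat]
    intro q hq
    rw [← card_fibre H q]
    congr 1
    ext x
    simp only [Finset.mem_filter, Finset.mem_univ, true_and, and_iff_right_iff_imp]
    intro hx
    obtain ⟨a, ha, haq⟩ := Finset.mem_image.mp hq
    refine mem_thick.mpr ⟨a, ha, ?_⟩
    have h1 : (QuotientAddGroup.mk a : G ⧸ H) = QuotientAddGroup.mk x := by rw [haq, hx]
    have := (QuotientAddGroup.eq).mp h1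
    rwa [neg_add_eq_sub] at this
  · intro x hx
    obtain ⟨a, ha, hxa⟩ := mem_thick.mp hx
    rw [Finset.mem_coe, Finset.mem_image]
    refine ⟨a, ha, ?_⟩
    rw [QuotientAddGroup.eq, neg_add_eq_sub]
    exact hxa

theorem dvd_card_thick (H : AddSubgroup G) (A : Finset G) : Nat.card H ∣ (thick H A).card := by
  classical
  rw [card_thick]
  exact Dvd.intro_left _ rfl

theorem card_le_card_thick (H : AddSubgroup G) (A : Finset G) : A.card ≤ (thick H A).card :=
  Finset.card_le_card (subset_thick H A)

theorem thick_union (H : AddSubgroup G) (A B : Finset G) :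
    thick H (A ∪ B) = thick H A ∪ thick H B := by
  ext x
  simp only [mem_thick, Finset.mem_union]
  constructor
  · rintro ⟨a, ha | ha, h⟩
    · exact Or.inl ⟨a, ha, h⟩
    · exact Or.inr ⟨a, ha, h⟩
  · rintro (⟨a, ha, h⟩ | ⟨a, ha, h⟩)
    · exact ⟨a, Or.inl ha, h⟩
    · exact ⟨a, Or.inr ha, h⟩

theorem thick_stb (A : Finset G) : thick (stb A) A = A := by
  apply Finset.Subset.antisymm _ (subset_thick _ _)
  intro x hx
  obtain ⟨a, ha, h⟩ := mem_thick.mp hx
  have := (mem_stb.mp h a).mpr ha
  simpa using this

theorem le_stb_iff {A : Finset G} {H : AddSubgroup G} : H ≤ stb A ↔ thick H A ⊆ A := by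
  constructor
  · intro h
    calc thick H A ⊆ thick (stb A) A := thick_mono h (Finset.Subset.refl _)
      _ = A := thick_stb A
  · intro h g hg
    apply mem_stb_of_subset
    intro a ha
    apply h
    exact mem_thick.mpr ⟨a, ha, by simpa using hg⟩

theorem stb_le_stb_add_left (A B : Finset G) : stb A ≤ stb (A + B) := by
  intro g hg
  apply mem_stb_of_subset
  intro x hx
  obtain ⟨a, ha, b, hb, rfl⟩ := Finset.mem_add.mp hx
  rw [← add_assoc]
  exact Finset.add_mem_add ((mem_stb.mp hg a).mpr ha) hb

theorem stb_le_stb_add_right (A B : Finset G) : stb B ≤ stb (A + B) := by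
  rw [add_comm]
  exact stb_le_stb_add_left B A

/-- Image under the quotient map. -/
noncomputable def qim (H : AddSubgroup G) [DecidableEq (G ⧸ H)] (A : Finset G) : Finset (G ⧸ H) :=
  A.image (fun x => (QuotientAddGroup.mk x : G ⧸ H))

theorem card_thick' (H : AddSubgroup G) [DecidableEq (G ⧸ H)] (A : Finset G) :
    (thick H A).card = (qim H A).card * Nat.card H := card_thick H A

theorem qim_add (H : AddSubgroup G) [DecidableEq (G ⧸ H)] (A B : Finset G) :
    qim H (A + B) = qim H A + qim H B :=
  Finset.image_add (QuotientAddGroup.mk' H)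

theorem mem_qim_stb {A : Finset G} [DecidableEq (G ⧸ stb A)] {x : G} :
    (QuotientAddGroup.mk x : G ⧸ stb A) ∈ qim (stb A) A ↔ x ∈ A := by
  unfold qim
  constructor
  · intro h
    obtain ⟨a, ha, hax⟩ := Finset.mem_image.mp h
    rw [QuotientAddGroup.eq, neg_add_eq_sub] at hax
    have := (mem_stb.mp hax a).mpr ha
    simpa using this
  · intro h
    exact Finset.mem_image.mpr ⟨x, h, rfl⟩

end Basic

/-- The image of `A` in the quotient by its stabiliser has trivial stabiliser. -/
theorem stb_qim {G : Type u} [AddCommGroup G] [Fintype G] [DecidableEq G] (A : Finset G)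
    [Fintype (G ⧸ stb A)] [DecidableEq (G ⧸ stb A)] :
    stb (qim (stb A) A) = ⊥ := by
  rw [eq_bot_iff]
  intro q hq
  obtain ⟨g, rfl⟩ := QuotientAddGroup.mk_surjective q
  rw [AddSubgroup.mem_bot, QuotientAddGroup.eq_zero_iff]
  apply mem_stb_of_subset
  intro a ha
  have h1 := (mem_stb.mp hq (QuotientAddGroup.mk a)).mpr (mem_qim_stb.mpr ha)
  rw [← QuotientAddGroup.mk_add] at h1
  exact mem_qim_stb.mp h1


section Core

variable {G : Type u} [AddCommGroup G] [Fintype G] [DecidableEq G]

/-- Kneser's inequality for a pair of sets. -/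
def KI (A B : Finset G) : Prop :=
  (thick (stb (A + B)) A).card + (thick (stb (A + B)) B).card
    ≤ (A + B).card + Nat.card (stb (A + B))

/-- The coset `a + H`. -/
noncomputable def cst (H : AddSubgroup G) (a : G) : Finset G := thick H {a}

theorem mem_cst {H : AddSubgroup G} {a x : G} : x ∈ cst H a ↔ x - a ∈ H := by
  simp [cst, mem_thick]

theorem card_cst (H : AddSubgroup G) (a : G) : (cst H a).card = Nat.card H := by
  classical
  rw [cst, card_thick]
  simp

/-- The convergent condition. -/
def Conv (A B C : Finset G) : Prop :=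
  C ⊆ A + B ∧ C.Nonempty ∧
    (A ∩ B).card + (thick (stb C) (A ∪ B)).card ≤ C.card + Nat.card (stb C)

theorem natcard_lt_of_lt {H K : AddSubgroup G} (h : H < K) : Nat.card H < Nat.card K := by
  have h1 : (H : Set G) ⊂ (K : Set G) := h
  have h2 := Set.ncard_lt_ncard h1 (Set.toFinite _)
  rw [← _root_.Nat.card_coe_set_eq, ← _root_.Nat.card_coe_set_eq] at h2
  exact h2

theorem natcard_pos (H : AddSubgroup G) : 0 < Nat.card H := Nat.card_pos

theorem key {A B C : Finset G} (hC : Conv A B C)
    (hmin : ∀ D, Conv A B D → Nat.card (stb C) ≤ Nat.card (stb D))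
    (IH : ∀ A' B' : Finset G, A'.Nonempty → B'.Nonempty →
      (A' + B').card + A'.card < (A + B).card + A.card → KI A' B')
    {a b z : G} (hz : z - (a + b) ∈ stb C) (hzn : z ∉ A + B)
    {P Q : Finset G} (hP : P.Nonempty) (hQ : Q.Nonempty) (hPA : P ⊆ A) (hQB : Q ⊆ B)
    (hPQ : ∀ x ∈ P + Q, x - (a + b) ∈ stb C) :
    stb (P + Q) ≤ stb C ∧
    (thick (stb C) (A ∪ B)).card + (thick (stb (P + Q)) P).card + (thick (stb (P + Q)) Q).card
      < (thick (stb (P + Q)) (A ∪ B)).card + Nat.card (stb C) ∧
    (thick (stb C) (A ∪ B)).card + (P + Q).card + (A ∩ B).card ≤ (A + B).card + Nat.card (stb C) ∧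
    (thick (stb (P + Q)) P).card + (thick (stb (P + Q)) Q).card
      ≤ (P + Q).card + Nat.card (stb (P + Q)) := by
  obtain ⟨hCsub, hCne, hCc⟩ := hC
  have hPQne : (P + Q).Nonempty := hP.add hQ
  have hPQsub : P + Q ⊆ A + B := Finset.add_subset_add hPA hQB
  -- the coset is disjoint from `C`
  have hcd : ∀ x, x - (a + b) ∈ stb C → x ∉ C := by
    intro x hx hxC
    apply hzn
    apply hCsub
    have h1 : z - x ∈ stb C := by
      have : z - x = (z - (a + b)) - (x - (a + b)) := by abel
      rw [this]
      exact (stb C).sub_mem hz hx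
    have := (mem_stb.mp h1 x).mpr hxC
    simpa using this
  have hdisj : Disjoint C (P + Q) := by
    rw [Finset.disjoint_right]
    intro x hx
    exact hcd x (hPQ x hx)
  -- stabiliser of `P + Q` lies in `stb C`
  have hle : stb (P + Q) ≤ stb C := by
    intro g hg
    obtain ⟨x, hx⟩ := hPQne
    have h1 := hPQ x hx
    have h2 := hPQ _ ((mem_stb.mp hg x).mpr hx)
    have : g = (g + x - (a + b)) - (x - (a + b)) := by abel
    rw [this]
    exact (stb C).sub_mem h2 h1
  have hlt : stb (P + Q) < stb C := by
    refine lt_of_le_of_ne hle ?_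
    intro heq
    obtain ⟨x, hx⟩ := hPQne
    have h1 : z - x ∈ stb C := by
      have : z - x = (z - (a + b)) - (x - (a + b)) := by abel
      rw [this]
      exact (stb C).sub_mem hz (hPQ x hx)
    rw [← heq] at h1
    have := (mem_stb.mp h1 x).mpr hx
    apply hzn
    apply hPQsub
    simpa using this
  -- the stabiliser of `C ∪ (P + Q)`
  have hstab : stb (C ∪ (P + Q)) = stb (P + Q) := by
    apply le_antisymm
    · intro g hg
      -- first `g ∈ stb C`
      have hgC : g ∈ stb C := by
        by_contra hgn
        -- take `x ∈ P + Q`, `z' = z` not in the union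
        obtain ⟨x, hx⟩ := hPQne
        have hgx : g + x ∈ C ∪ (P + Q) := (mem_stb.mp hg x).mpr (Finset.mem_union_right _ hx)
        have hgxC : g + x ∈ C := by
          rcases Finset.mem_union.mp hgx with h | h
          · exact h
          · exfalso
            apply hgn
            have : g = (g + x - (a + b)) - (x - (a + b)) := by abel
            rw [this]
            exact (stb C).sub_mem (hPQ _ h) (hPQ x hx)
        have h1 : z - x ∈ stb C := by
          have : z - x = (z - (a + b)) - (x - (a + b)) := by abel
          rw [this]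
          exact (stb C).sub_mem hz (hPQ x hx)
        have h2 : g + z ∈ C := by
          have := (mem_stb.mp h1 (g + x)).mpr hgxC
          have h3 : z - x + (g + x) = g + z := by abel
          rwa [h3] at this
        have h4 : z ∈ C ∪ (P + Q) := (mem_stb.mp hg z).mp (Finset.mem_union_left _ h2)
        rcases Finset.mem_union.mp h4 with h | h
        · exact hzn (hCsub h)
        · exact hzn (hPQsub h)
      apply mem_stb_of_subset
      intro x hx
      have h1 : g + x ∈ C ∪ (P + Q) := (mem_stb.mp hg x).mpr (Finset.mem_union_right _ hx)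
      rcases Finset.mem_union.mp h1 with h | h
      · exfalso
        have := (mem_stb.mp hgC x).mp h
        exact (Finset.disjoint_right.mp hdisj hx) this
      · exact h
    · intro g hg
      apply mem_stb_of_subset
      intro x hx
      rcases Finset.mem_union.mp hx with h | h
      · exact Finset.mem_union_left _ ((mem_stb.mp (hle hg) x).mpr h)
      · exact Finset.mem_union_right _ ((mem_stb.mp hg x).mpr h)
  have hcard : (C ∪ (P + Q)).card = C.card + (P + Q).card := Finset.card_union_of_disjoint hdisj
  have hsub : C ∪ (P + Q) ⊆ A + B := Finset.union_subset hCsub hPQsub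
  have hcard2 : C.card + (P + Q).card ≤ (A + B).card := by
    rw [← hcard]; exact Finset.card_le_card hsub
  have hnot : ¬ Conv A B (C ∪ (P + Q)) := by
    intro h
    have := hmin _ h
    rw [hstab] at this
    exact absurd (natcard_lt_of_lt hlt) (not_lt.mpr this)
  have hnot2 : C.card + (P + Q).card + Nat.card (stb (P + Q)) <
      (A ∩ B).card + (thick (stb (P + Q)) (A ∪ B)).card := by
    by_contra hc
    apply hnot
    refine ⟨hsub, hCne.mono Finset.subset_union_left, ?_⟩
    rw [hstab, hcard]
    exact not_lt.mp hc
  have hIH : KI P Q := by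
    apply IH P Q hP hQ
    have h1 : 0 < C.card := hCne.card_pos
    have h2 : P.card ≤ A.card := Finset.card_le_card hPA
    omega
  unfold KI at hIH
  refine ⟨hle, ?_, ?_, hIH⟩
  · omega
  · omega

theorem card_sdiff_thick {H K : AddSubgroup G} (hKH : K ≤ H) {U V : Finset G} {a : G}
    (hV : ∀ x ∈ U, x - a ∈ H → x ∈ V) (ha : ∃ u ∈ U, u - a ∈ H) :
    (cst H a \ thick K U).card + (thick K V).card ≥ Nat.card H ∧
      cst H a ⊆ thick H U := by
  constructor
  · rw [← card_cst H a]
    have hsub : cst H a ⊆ (cst H a \ thick K U) ∪ thick K V := by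
      intro x hx
      by_cases hxU : x ∈ thick K U
      · apply Finset.mem_union_right
        obtain ⟨u, hu, hxu⟩ := mem_thick.mp hxU
        refine mem_thick.mpr ⟨u, hV u hu ?_, hxu⟩
        have h1 := mem_cst.mp hx
        have : u - a = (x - a) - (x - u) := by abel
        rw [this]
        exact H.sub_mem h1 (hKH hxu)
      · apply Finset.mem_union_left
        exact Finset.mem_sdiff.mpr ⟨hx, hxU⟩
    calc (cst H a).card ≤ ((cst H a \ thick K U) ∪ thick K V).card := Finset.card_le_card hsub
      _ ≤ _ := Finset.card_union_le _ _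
  · intro x hx
    obtain ⟨u, hu, hua⟩ := ha
    refine mem_thick.mpr ⟨u, hu, ?_⟩
    have : x - u = (x - a) - (u - a) := by abel
    rw [this]
    exact H.sub_mem (mem_cst.mp hx) hua

theorem core {A B : Finset G} (hAB : (A ∩ B).Nonempty) (hnot : ¬ A ⊆ B)
    (hst : stb (A + B) = ⊥)
    (IH : ∀ A' B' : Finset G, A'.Nonempty → B'.Nonempty →
      (A' + B').card + A'.card < (A + B).card + A.card → KI A' B') :
    A.card + B.card ≤ (A + B).card + 1 := by
  classical
  by_contra hcon
  push Not at hcon
  have hcap : (A ∩ B).card + (A ∪ B).card = A.card + B.card := Finset.card_inter_add_card_union A B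
  -- the first convergent
  have hC0 : Conv A B ((A ∩ B) + (A ∪ B)) := by
    have hsub : (A ∩ B) + (A ∪ B) ⊆ A + B := by
      intro x hx
      obtain ⟨p, hp, q, hq, rfl⟩ := Finset.mem_add.mp hx
      rcases Finset.mem_union.mp hq with h | h
      · rw [add_comm p q]
        exact Finset.add_mem_add h (Finset.mem_inter.mp hp).2
      · exact Finset.add_mem_add (Finset.mem_inter.mp hp).1 h
    have hne : (A ∪ B).Nonempty := hAB.mono (Finset.inter_subset_left.trans Finset.subset_union_left)
    refine ⟨hsub, hAB.add hne, ?_⟩
    have hlt : (A ∩ B).card < A.card := by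
      apply Finset.card_lt_card
      rw [Finset.ssubset_iff_subset_ne]
      refine ⟨Finset.inter_subset_left, ?_⟩
      intro h
      exact hnot (Finset.inter_eq_left.mp h)
    have h1 := IH (A ∩ B) (A ∪ B) hAB hne (by
      have := Finset.card_le_card hsub
      omega)
    unfold KI at h1
    have h2 := card_le_card_thick (stb ((A ∩ B) + (A ∪ B))) (A ∩ B)
    omega
  obtain ⟨C, hCmem, hCmin⟩ := Finset.exists_min_image
    ((A + B).powerset.filter (fun C => Conv A B C)) (fun C => Nat.card (stb C))
    ⟨_, Finset.mem_filter.mpr ⟨Finset.mem_powerset.mpr hC0.1, hC0⟩⟩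
  have hC : Conv A B C := (Finset.mem_filter.mp hCmem).2
  have hmin : ∀ D, Conv A B D → Nat.card (stb C) ≤ Nat.card (stb D) := by
    intro D hD
    exact hCmin D (Finset.mem_filter.mpr ⟨Finset.mem_powerset.mpr hD.1, hD⟩)
  set H := stb C with hH
  -- `H` is nontrivial
  have hHne : H ≠ ⊥ := by
    intro hbot
    have h1 := hC.2.2
    rw [← hH, hbot, thick_bot] at h1
    have h2 := Finset.card_le_card hC.1
    have h3 : Nat.card (⊥ : AddSubgroup G) = 1 := by simp
    omega
  have hnst : ¬ H ≤ stb (A + B) := by
    rw [hst]
    intro h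
    exact hHne (le_bot_iff.mp h)
  rw [le_stb_iff] at hnst
  obtain ⟨z, hz, hzn⟩ := Finset.not_subset.mp hnst
  obtain ⟨w, hw, hzw⟩ := mem_thick.mp hz
  obtain ⟨a, ha, b, hb, rfl⟩ := Finset.mem_add.mp hw
  set A1 := A.filter (fun x => x - a ∈ H) with hA1
  set A2 := A.filter (fun x => x - b ∈ H) with hA2
  set B1 := B.filter (fun x => x - b ∈ H) with hB1
  set B2 := B.filter (fun x => x - a ∈ H) with hB2
  have hA1ne : A1.Nonempty := ⟨a, Finset.mem_filter.mpr ⟨ha, by simp⟩⟩
  have hB1ne : B1.Nonempty := ⟨b, Finset.mem_filter.mpr ⟨hb, by simp⟩⟩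
  have hPQ1 : ∀ x ∈ A1 + B1, x - (a + b) ∈ H := by
    intro x hx
    obtain ⟨p, hp, q, hq, rfl⟩ := Finset.mem_add.mp hx
    have h1 := (Finset.mem_filter.mp hp).2
    have h2 := (Finset.mem_filter.mp hq).2
    have : p + q - (a + b) = (p - a) + (q - b) := by abel
    rw [this]
    exact H.add_mem h1 h2
  have hPQ2 : ∀ x ∈ A2 + B2, x - (a + b) ∈ H := by
    intro x hx
    obtain ⟨p, hp, q, hq, rfl⟩ := Finset.mem_add.mp hx
    have h1 := (Finset.mem_filter.mp hp).2
    have h2 := (Finset.mem_filter.mp hq).2
    have : p + q - (a + b) = (p - b) + (q - a) := by abel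
    rw [this]
    exact H.add_mem h1 h2
  obtain ⟨hle1, hF1, hG1, hI1⟩ := key hC hmin IH hzw hzn hA1ne hB1ne
    (Finset.filter_subset _ _) (Finset.filter_subset _ _) hPQ1
  rw [← hH] at hle1 hF1 hG1
  set H1 := stb (A1 + B1) with hH1
  have hcosa : cst H a ⊆ thick H (A ∪ B) := by
    intro x hx
    exact mem_thick.mpr ⟨a, Finset.mem_union_left _ ha, mem_cst.mp hx⟩
  have hcosb : cst H b ⊆ thick H (A ∪ B) := by
    intro x hx
    exact mem_thick.mpr ⟨b, Finset.mem_union_right _ hb, mem_cst.mp hx⟩
  -- difference of the two thickenings contains the missing part of a coset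
  have hdiff : ∀ (K : AddSubgroup G), K ≤ H → ∀ S : Finset G, S ⊆ thick H (A ∪ B) →
      (S \ thick K (A ∪ B)).card + (thick K (A ∪ B)).card ≤ (thick H (A ∪ B)).card := by
    intro K hK S hS
    rw [← Finset.card_union_of_disjoint Finset.sdiff_disjoint]
    apply Finset.card_le_card
    apply Finset.union_subset
    · exact Finset.sdiff_subset.trans hS
    · exact thick_mono hK (Finset.Subset.refl _)
  have hVa : ∀ x ∈ A ∪ B, x - a ∈ H → x ∈ A1 ∪ B2 := by
    intro x hx hxa
    rcases Finset.mem_union.mp hx with h | h
    · exact Finset.mem_union_left _ (Finset.mem_filter.mpr ⟨h, hxa⟩)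
    · exact Finset.mem_union_right _ (Finset.mem_filter.mpr ⟨h, hxa⟩)
  have hVb : ∀ x ∈ A ∪ B, x - b ∈ H → x ∈ A2 ∪ B1 := by
    intro x hx hxa
    rcases Finset.mem_union.mp hx with h | h
    · exact Finset.mem_union_left _ (Finset.mem_filter.mpr ⟨h, hxa⟩)
    · exact Finset.mem_union_right _ (Finset.mem_filter.mpr ⟨h, hxa⟩)
  have hexa : ∃ u ∈ A ∪ B, u - a ∈ H := ⟨a, Finset.mem_union_left _ ha, by simp⟩
  have hexb : ∃ u ∈ A ∪ B, u - b ∈ H := ⟨b, Finset.mem_union_right _ hb, by simp⟩
  have hda := hdiff H1 hle1 _ hcosa
  have hdb := hdiff H1 hle1 _ hcosb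
  have hsa := (card_sdiff_thick hle1 hVa hexa).1
  have hsb := (card_sdiff_thick hle1 hVb hexb).1
  -- `B2` nonempty
  have hB2ne : B2.Nonempty := by
    by_contra h
    rw [Finset.not_nonempty_iff_eq_empty] at h
    rw [h, Finset.union_empty] at hsa
    have := card_le_card_thick H1 B1
    have := hB1ne.card_pos
    omega
  have hA2ne : A2.Nonempty := by
    by_contra h
    rw [Finset.not_nonempty_iff_eq_empty] at h
    rw [h, Finset.empty_union] at hsb
    have := card_le_card_thick H1 A1
    have := hA1ne.card_pos
    omega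
  obtain ⟨hle2, hF2, hG2, hI2⟩ := key hC hmin IH hzw hzn hA2ne hB2ne
    (Finset.filter_subset _ _) (Finset.filter_subset _ _) hPQ2
  rw [← hH] at hle2 hF2 hG2
  set H2 := stb (A2 + B2) with hH2
  -- the two cosets are distinct
  by_cases hab : a - b ∈ H
  · have h1 : B2 ⊆ B1 := by
      intro x hx
      obtain ⟨hxB, hxa⟩ := Finset.mem_filter.mp hx
      refine Finset.mem_filter.mpr ⟨hxB, ?_⟩
      have : x - b = (x - a) + (a - b) := by abel
      rw [this]
      exact H.add_mem hxa hab
    have h2 : (thick H1 (A1 ∪ B2)).card ≤ (thick H1 A1).card + (thick H1 B1).card := by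
      calc (thick H1 (A1 ∪ B2)).card ≤ (thick H1 (A1 ∪ B1)).card :=
            Finset.card_le_card (thick_mono le_rfl (Finset.union_subset_union_right h1))
        _ = (thick H1 A1 ∪ thick H1 B1).card := by rw [thick_union]
        _ ≤ _ := Finset.card_union_le _ _
    omega
  · have hdisj : Disjoint (cst H a) (cst H b) := by
      rw [Finset.disjoint_left]
      intro x hxa hxb
      apply hab
      have : a - b = (x - b) - (x - a) := by abel
      rw [this]
      exact H.sub_mem (mem_cst.mp hxb) (mem_cst.mp hxa)
    -- sizes divisible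
    have hdv1 : Nat.card H1 ∣ Nat.card H := AddSubgroup.card_dvd_of_le hle1
    have hdv2 : Nat.card H2 ∣ Nat.card H := AddSubgroup.card_dvd_of_le hle2
    have hlt1 : (thick H1 A1).card + (thick H1 B1).card < Nat.card H := by
      have := Finset.card_le_card (thick_mono hle1 (Finset.Subset.refl (A ∪ B)))
      omega
    have hlt2 : (thick H2 A2).card + (thick H2 B2).card < Nat.card H := by
      have := Finset.card_le_card (thick_mono hle2 (Finset.Subset.refl (A ∪ B)))
      omega
    have hstep : ∀ (d x y : ℕ), 0 < d → d ∣ x → d ∣ y → x < y → x + d ≤ y := by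
      intro d x y hd hx hy hxy
      obtain ⟨p, rfl⟩ := hx
      obtain ⟨q, rfl⟩ := hy
      have : p < q := lt_of_mul_lt_mul_left hxy (Nat.zero_le _)
      calc d * p + d = d * (p + 1) := by ring
        _ ≤ d * q := Nat.mul_le_mul_left _ this
    have hE1 := hstep _ _ _ (natcard_pos H1)
      (Dvd.dvd.add (dvd_card_thick H1 A1) (dvd_card_thick H1 B1)) hdv1 hlt1
    have hE2 := hstep _ _ _ (natcard_pos H2)
      (Dvd.dvd.add (dvd_card_thick H2 A2) (dvd_card_thick H2 B2)) hdv2 hlt2
    -- the missing parts
    have hS : Nat.card H ≤ (cst H a \ (A ∪ B)).card + A1.card + B2.card := by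
      rw [← card_cst H a]
      have hsub : cst H a ⊆ (cst H a \ (A ∪ B)) ∪ (A1 ∪ B2) := by
        intro x hx
        by_cases hxU : x ∈ A ∪ B
        · exact Finset.mem_union_right _ (hVa x hxU (mem_cst.mp hx))
        · exact Finset.mem_union_left _ (Finset.mem_sdiff.mpr ⟨hx, hxU⟩)
      have h1 := Finset.card_le_card hsub
      have h2 := Finset.card_union_le (cst H a \ (A ∪ B)) (A1 ∪ B2)
      have h3 := Finset.card_union_le A1 B2
      omega
    have hT : Nat.card H ≤ (cst H b \ (A ∪ B)).card + A2.card + B1.card := by
      rw [← card_cst H b]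
      have hsub : cst H b ⊆ (cst H b \ (A ∪ B)) ∪ (A2 ∪ B1) := by
        intro x hx
        by_cases hxU : x ∈ A ∪ B
        · exact Finset.mem_union_right _ (hVb x hxU (mem_cst.mp hx))
        · exact Finset.mem_union_left _ (Finset.mem_sdiff.mpr ⟨hx, hxU⟩)
      have h1 := Finset.card_le_card hsub
      have h2 := Finset.card_union_le (cst H b \ (A ∪ B)) (A2 ∪ B1)
      have h3 := Finset.card_union_le A2 B1
      omega
    have hST : (cst H a \ (A ∪ B)).card + (cst H b \ (A ∪ B)).card + (A ∪ B).card
        ≤ (thick H (A ∪ B)).card := by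
      have hd1 : Disjoint (cst H a \ (A ∪ B)) (cst H b \ (A ∪ B)) :=
        Finset.disjoint_of_subset_left Finset.sdiff_subset
          (Finset.disjoint_of_subset_right Finset.sdiff_subset hdisj)
      rw [← Finset.card_union_of_disjoint hd1, ← Finset.card_union_of_disjoint]
      · apply Finset.card_le_card
        apply Finset.union_subset
        · exact Finset.union_subset (Finset.sdiff_subset.trans hcosa)
            (Finset.sdiff_subset.trans hcosb)
        · exact subset_thick _ _
      · rw [Finset.disjoint_union_left]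
        exact ⟨Finset.sdiff_disjoint, Finset.sdiff_disjoint⟩
    have hc1 := card_le_card_thick H1 A1
    have hc2 := card_le_card_thick H1 B1
    have hc3 := card_le_card_thick H2 A2
    have hc4 := card_le_card_thick H2 B2
    omega

end Core

section Main

theorem stb_singleton_add {G : Type u} [AddCommGroup G] [Fintype G] [DecidableEq G]
    (t : G) (X : Finset G) : stb ({t} + X) = stb X := by
  apply le_antisymm
  · have h := stb_le_stb_add_right {-t} ({t} + X)
    rw [← add_assoc, Finset.singleton_add_singleton, neg_add_cancel, Finset.singleton_zero,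
      zero_add] at h
    exact h
  · exact stb_le_stb_add_right _ _

theorem kneser_aux (n : ℕ) : ∀ (G : Type u) [AddCommGroup G] [Fintype G] [DecidableEq G]
    (A B : Finset G), A.Nonempty → B.Nonempty → (A + B).card + A.card = n → KI A B := by
  induction n using Nat.strong_induction_on with
  | _ n ih =>
    intro G _ _ _ A B hA hB hn
    by_cases hst : stb (A + B) = ⊥
    · have hmain : A.card + B.card ≤ (A + B).card + 1 := by
        by_cases h1 : A.card = 1
        · obtain ⟨a, rfl⟩ := Finset.card_eq_one.mp h1
          rw [Finset.card_singleton_add]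
          omega
        · have h2 : 1 < A.card := by
            have := hA.card_pos
            omega
          obtain ⟨a, ha, a', ha', hne⟩ := Finset.one_lt_card.mp h2
          have hnB : a' - a ∉ stb B := by
            intro h
            have := stb_le_stb_add_right A B h
            rw [hst, AddSubgroup.mem_bot, sub_eq_zero] at this
            exact hne this.symm
          have hex : ∃ b ∈ B, (a' - a) + b ∉ B := by
            by_contra hcon
            push Not at hcon
            exact hnB (mem_stb_of_subset hcon)
          obtain ⟨b, hb, hb'⟩ := hex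
          have hcomm : A + ({a - b} + B) = {a - b} + (A + B) := add_left_comm _ _ _
          have hcard : (A + ({a - b} + B)).card = (A + B).card := by
            rw [hcomm, Finset.card_singleton_add]
          have haB : a ∈ ({a - b} + B : Finset G) := by
            rw [Finset.mem_add]
            exact ⟨a - b, Finset.mem_singleton_self _, b, hb, by simp⟩
          have haB' : a' ∉ ({a - b} + B : Finset G) := by
            rw [Finset.mem_add]
            rintro ⟨x, hx, y, hy, hxy⟩
            rw [Finset.mem_singleton] at hx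
            subst hx
            apply hb'
            have : a' - a + b = y := by
              rw [← hxy]; abel
            rwa [this]
          have := core (A := A) (B := {a - b} + B) ⟨a, Finset.mem_inter.mpr ⟨ha, haB⟩⟩
            (fun h => haB' (h ha'))
            (by rw [hcomm, stb_singleton_add, hst])
            (by
              intro A' B' hA' hB' hlt
              rw [hcard] at hlt
              exact ih _ (by omega) G A' B' hA' hB' rfl)
          rw [hcard, Finset.card_singleton_add] at this
          exact this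
      unfold KI
      rw [hst, thick_bot, thick_bot]
      simpa using hmain
    · classical
      have hq1 : (qim (stb (A + B)) A).Nonempty := hA.image _
      have hq2 : (qim (stb (A + B)) B).Nonempty := hB.image _
      have hadd : qim (stb (A + B)) A + qim (stb (A + B)) B = qim (stb (A + B)) (A + B) :=
        (qim_add _ _ _).symm
      have hcard1 : (A + B).card = (qim (stb (A + B)) (A + B)).card * Nat.card (stb (A + B)) := by
        rw [← card_thick', thick_stb]
      have hcardA : (qim (stb (A + B)) A).card ≤ A.card := Finset.card_image_le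
      have hK : 1 < Nat.card (stb (A + B)) := by
        by_contra hcon
        apply hst
        have h1 : 0 < Nat.card (stb (A + B)) := natcard_pos _
        have h2 : Nat.card (stb (A + B)) = 1 := by omega
        exact AddSubgroup.card_eq_one.mp h2
      have hpos : 0 < (qim (stb (A + B)) (A + B)).card := ((hA.add hB).image _).card_pos
      have hlt : (qim (stb (A + B)) A + qim (stb (A + B)) B).card + (qim (stb (A + B)) A).card
          < n := by
        rw [hadd, ← hn]
        have : (qim (stb (A + B)) (A + B)).card < (A + B).card := by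
          rw [hcard1]
          exact lt_mul_of_one_lt_right hpos hK
        omega
      have hI := ih _ hlt (G ⧸ stb (A + B)) (qim (stb (A + B)) A) (qim (stb (A + B)) B) hq1 hq2 rfl
      unfold KI at hI
      rw [hadd, stb_qim, thick_bot, thick_bot] at hI
      have h3 : Nat.card (⊥ : AddSubgroup (G ⧸ stb (A + B))) = 1 := by simp
      rw [h3] at hI
      unfold KI
      rw [card_thick', card_thick']
      have h4 := Nat.mul_le_mul_right (Nat.card (stb (A + B))) hI
      calc (qim (stb (A + B)) A).card * Nat.card (stb (A + B)) +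
            (qim (stb (A + B)) B).card * Nat.card (stb (A + B))
          = ((qim (stb (A + B)) A).card + (qim (stb (A + B)) B).card) *
              Nat.card (stb (A + B)) := by ring
        _ ≤ ((qim (stb (A + B)) (A + B)).card + 1) * Nat.card (stb (A + B)) := h4
        _ = (A + B).card + Nat.card (stb (A + B)) := by rw [add_mul, ← hcard1, one_mul]

/-- **Kneser's addition theorem** for finite abelian groups. -/
theorem kneser {G : Type u} [AddCommGroup G] [Fintype G] [DecidableEq G]
    {A B : Finset G} (hA : A.Nonempty) (hB : B.Nonempty) :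
    (thick (stb (A + B)) A).card + (thick (stb (A + B)) B).card
      ≤ (A + B).card + Nat.card (stb (A + B)) :=
  kneser_aux _ G A B hA hB rfl

/-- Kneser's theorem when the sumset is aperiodic. -/
theorem kneser_aperiodic {G : Type u} [AddCommGroup G] [Fintype G] [DecidableEq G]
    {A B : Finset G} (hA : A.Nonempty) (hB : B.Nonempty) (h : stb (A + B) = ⊥) :
    A.card + B.card ≤ (A + B).card + 1 := by
  have := kneser hA hB
  rw [h, thick_bot, thick_bot] at this
  simpa using this

/-- Iterated version of `kneser_aperiodic`. -/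
theorem card_add_nsmul {G : Type u} [AddCommGroup G] [Fintype G] [DecidableEq G]
    {X B : Finset G} (hX : X.Nonempty) (hB : B.Nonempty) (j : ℕ) (h : stb (X + j • B) = ⊥) :
    X.card + j * B.card ≤ (X + j • B).card + j := by
  induction j with
  | zero => simp
  | succ j ih =>
    have heq : X + (j + 1) • B = (X + j • B) + B := by rw [succ_nsmul, add_assoc]
    rw [heq] at h ⊢
    have h1 : stb (X + j • B) = ⊥ := by
      rw [eq_bot_iff, ← h]
      exact stb_le_stb_add_left _ _
    have h2 := ih h1
    have h3 := kneser_aperiodic (hX.add (hB.nsmul)) hB h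
    calc X.card + (j + 1) * B.card = (X.card + j * B.card) + B.card := by ring
      _ ≤ ((X + j • B).card + j) + B.card := by omega
      _ ≤ ((X + j • B) + B).card + (j + 1) := by omega

end Main

end Pool.Agent.H43.Kneser
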