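import Mathlib
import Pool.Agent.H43.Kneser

set_option autoImplicit false
set_option linter.unusedSectionVars false

namespace Pool.Agent.H43.NoisySumFree

open Finset Pool.Agent.H43.Kneser
open scoped Pointwise

universe u

section Interval

variable {G : Type u} [AddCommGroup G] [Fintype G] [DecidableEq G]

/-- The progression `x, x+g, ..., x+p g`. -/
def J (g x : G) (p : ℕ) : Finset G := (Finset.range (p + 1)).image (fun i => x + i • g)

theorem mem_J {g x y : G} {p : ℕ} : y ∈ J g x p ↔ ∃ i, i ≤ p ∧ x + i • g = y := by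
  simp [J]

theorem J_nonempty (g x : G) (p : ℕ) : (J g x p).Nonempty :=
  ⟨x, mem_J.mpr ⟨0, Nat.zero_le _, by simp⟩⟩

theorem J_add (g x y : G) (p q : ℕ) : J g x p + J g y q = J g (x + y) (p + q) := by
  ext z
  rw [Finset.mem_add, mem_J]
  constructor
  · rintro ⟨a, ha, b, hb, rfl⟩
    obtain ⟨i, hi, rfl⟩ := mem_J.mp ha
    obtain ⟨j, hj, rfl⟩ := mem_J.mp hb
    refine ⟨i + j, by omega, ?_⟩
    rw [add_nsmul]; abel
  · rintro ⟨m, hm, rfl⟩
    by_cases h : m ≤ p
    · refine ⟨x + m • g, mem_J.mpr ⟨m, h, rfl⟩, y, mem_J.mpr ⟨0, Nat.zero_le _, by simp⟩, ?_⟩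
      abel
    · refine ⟨x + p • g, mem_J.mpr ⟨p, le_rfl, rfl⟩, y + (m - p) • g,
        mem_J.mpr ⟨m - p, by omega, rfl⟩, ?_⟩
      have : m • g = p • g + (m - p) • g := by rw [← add_nsmul]; congr 1; omega
      rw [this]; abel

theorem nsmul_J (g x : G) (p m : ℕ) : m • J g x p = J g (m • x) (m * p) := by
  induction m with
  | zero =>
    simp only [zero_smul, zero_mul]
    ext z
    rw [mem_J]
    simp [eq_comm]
  | succ m ih =>
    rw [succ_nsmul, ih, J_add, succ_nsmul, Nat.succ_mul]

/-- The iterated noisy sumset in terms of the two-element noise. -/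
def X (g : G) (c m : ℕ) (A : Finset G) : Finset G := m • A + ((m - 1) * (c - 1)) • J g 0 1

theorem X_nonempty {g : G} {c m : ℕ} {A : Finset G} (hA : A.Nonempty) : (X g c m A).Nonempty :=
  (hA.nsmul).add ((J_nonempty g 0 1).nsmul)

theorem qim_J (H : AddSubgroup G) [Fintype (G ⧸ H)] [DecidableEq (G ⧸ H)] (g x : G) (p : ℕ) :
    qim H (J g x p) = J (QuotientAddGroup.mk g : G ⧸ H) (QuotientAddGroup.mk x) p := by
  unfold qim J
  rw [Finset.image_image]
  apply Finset.image_congr
  intro i _
  simp only [Function.comp]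
  rfl

theorem qim_nsmul (H : AddSubgroup G) [Fintype (G ⧸ H)] [DecidableEq (G ⧸ H)] (A : Finset G)
    (m : ℕ) : qim H (m • A) = m • qim H A := by
  induction m with
  | zero =>
    simp only [zero_smul]
    unfold qim
    ext z
    simp [eq_comm]
  | succ m ih => rw [succ_nsmul, qim_add, ih, succ_nsmul]

theorem qim_X (H : AddSubgroup G) [Fintype (G ⧸ H)] [DecidableEq (G ⧸ H)] (g : G) (c m : ℕ)
    (A : Finset G) : qim H (X g c m A) = X (QuotientAddGroup.mk g : G ⧸ H) c m (qim H A) := by
  unfold X
  rw [qim_add, qim_nsmul, qim_nsmul, qim_J]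
  rfl

theorem card_J_one {g : G} (hg : g ≠ 0) : (J g 0 1).card = 2 := by
  have : J g 0 1 = {0, g} := by
    ext z
    rw [mem_J]
    simp only [zero_add, Finset.mem_insert, Finset.mem_singleton]
    constructor
    · rintro ⟨i, hi, rfl⟩
      interval_cases i
      · left; simp
      · right; simp
    · rintro (rfl | rfl)
      · exact ⟨0, by omega, by simp⟩
      · exact ⟨1, le_rfl, by simp⟩
  rw [this, Finset.card_pair (Ne.symm hg)]

end Interval

/-- Lower bound in a cyclic group. -/
theorem lower_bound {G : Type u} [AddCommGroup G] [Fintype G] [DecidableEq G] {g : G}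
    (hg : ∀ x : G, ∃ i : ℕ, x = i • g) {c m : ℕ} (hc : 2 ≤ c) (hm : 1 ≤ m) {A : Finset G}
    (hA : A.Nonempty) (hX : X g c m A ≠ Finset.univ) :
    m * A.card + (m - 1) * (c - 2) ≤ (X g c m A).card := by
  classical
  set H := stb (X g c m A) with hH
  have hcard : (X g c m A).card = (qim H (X g c m A)).card * Nat.card H := by
    rw [← card_thick', thick_stb]
  have hcardA : A.card ≤ (qim H A).card * Nat.card H := by
    rw [← card_thick']
    exact card_le_card_thick H A
  have hHpos : 0 < Nat.card H := natcard_pos H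
  have hst : stb (qim H (X g c m A)) = ⊥ := stb_qim _
  rw [qim_X] at hst hcard
  set g' : G ⧸ H := QuotientAddGroup.mk g with hg'
  set A' := qim H A with hA'
  have hA'ne : A'.Nonempty := hA.image _
  -- `g'` is nonzero
  have hgne : g' ≠ 0 := by
    intro h0
    apply hX
    rw [Finset.eq_univ_iff_forall]
    intro x
    obtain ⟨y, hy⟩ := (X_nonempty (g := g) (c := c) (m := m) hA)
    have hsub : x - y ∈ H := by
      obtain ⟨i, hi⟩ := hg (x - y)
      rw [hi]
      have : g ∈ H := (QuotientAddGroup.eq_zero_iff g).mp h0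
      exact H.nsmul_mem this i
    have := (mem_stb.mp hsub y).mpr hy
    simpa using this
  -- apply Kneser in the quotient
  obtain ⟨m, rfl⟩ : ∃ m', m = m' + 1 := ⟨m - 1, by omega⟩
  have hXdef : X g' c (m + 1) A' = (A' + m • A') + (m * (c - 1)) • J g' 0 1 := by
    unfold X
    rw [succ_nsmul, add_comm (m • A') A']
    simp
  have hst1 : stb (A' + m • A') = ⊥ := by
    rw [eq_bot_iff, ← hst, hXdef]
    exact stb_le_stb_add_left _ _
  have h1 := card_add_nsmul hA'ne hA'ne m hst1
  rw [hXdef] at hst
  have h2 := card_add_nsmul (hA'ne.add hA'ne.nsmul) (J_nonempty g' 0 1) (m * (c - 1)) hst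
  rw [card_J_one hgne, ← hXdef] at h2
  obtain ⟨c, rfl⟩ : ∃ c', c = c' + 2 := ⟨c - 2, by omega⟩
  simp only [Nat.add_sub_cancel] at h2 ⊢
  have hc1 : c + 2 - 1 = c + 1 := by omega
  rw [hc1] at h2
  have h3 : (m + 1) * A'.card + m * c ≤ (X g' (c + 2) (m + 1) A').card := by
    nlinarith
  rw [hcard]
  calc (m + 1) * A.card + m * c ≤ (m + 1) * (A'.card * Nat.card H) + m * c * Nat.card H := by
        apply Nat.add_le_add
        · exact Nat.mul_le_mul_left _ hcardA
        · exact Nat.le_mul_of_pos_right _ hHpos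
    _ = ((m + 1) * A'.card + m * c) * Nat.card H := by ring
    _ ≤ _ := Nat.mul_le_mul_right _ h3

/-- A set which is not everything and grows by at most one when `{0, g}` is added is an interval. -/
theorem eq_J_of_card {G : Type u} [AddCommGroup G] [Fintype G] [DecidableEq G] {g : G}
    (hg : ∀ x : G, ∃ i : ℕ, x = i • g) {A : Finset G} (hA : A.Nonempty)
    (hcard : (A + J g 0 1).card ≤ A.card + 1) (hne : A ≠ Finset.univ) :
    ∃ x, ∃ p, p + 1 = A.card ∧ A = J g x p := by
  classical
  -- membership in `A + J`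
  have hmem : ∀ a ∈ A, a + g ∈ A + J g 0 1 := fun a ha =>
    Finset.add_mem_add ha (mem_J.mpr ⟨1, le_rfl, by simp⟩)
  have hsub : A ⊆ A + J g 0 1 := fun a ha => by
    have := Finset.add_mem_add ha (mem_J (g := g) (x := 0) (p := 1).mpr ⟨0, by omega, rfl⟩)
    simpa using this
  -- there is an exit point
  have hexit : ∃ b ∈ A, b + g ∉ A := by
    by_contra hcon
    push Not at hcon
    apply hne
    rw [Finset.eq_univ_iff_forall]
    intro x
    obtain ⟨a, ha⟩ := hA
    have hall : ∀ i : ℕ, a + i • g ∈ A := by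
      intro i
      induction i with
      | zero => simpa using ha
      | succ i ih =>
        have := hcon _ ih
        rwa [succ_nsmul, ← add_assoc]
    obtain ⟨i, hi⟩ := hg (x - a)
    have := hall i
    rw [← hi] at this
    simpa using this
  obtain ⟨b, hb, hbn⟩ := hexit
  -- the exit point is unique
  have huniq : ∀ a ∈ A, a + g ∉ A → a = b := by
    intro a ha han
    by_contra hab
    have h1 : insert (a + g) (insert (b + g) A) ⊆ A + J g 0 1 := by
      intro x hx
      rcases Finset.mem_insert.mp hx with rfl | hx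
      · exact hmem a ha
      · rcases Finset.mem_insert.mp hx with rfl | hx
        · exact hmem b hb
        · exact hsub hx
    have h2 := Finset.card_le_card h1
    rw [Finset.card_insert_of_notMem, Finset.card_insert_of_notMem hbn] at h2
    · omega
    · rw [Finset.mem_insert, not_or]
      exact ⟨fun h => hab (add_right_cancel h), han⟩
  -- the elements `b, b - g, ...` until we leave `A`
  have hleave : ∃ m : ℕ, b - (m + 1) • g ∉ A := by
    obtain ⟨i, hi⟩ := hg (b - (b + g))
    by_contra hcon
    push Not at hcon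
    -- `b + g = b - i • g`
    have h1 : b + g = b - i • g := by rw [← hi]; abel
    cases i with
    | zero =>
      rw [h1] at hbn
      simp at hbn
      exact hbn hb
    | succ i =>
      apply hbn
      rw [h1]
      exact hcon i
  set m := Nat.find hleave with hm
  have hmspec : b - (m + 1) • g ∉ A := Nat.find_spec hleave
  have hmmin : ∀ i, i ≤ m → b - i • g ∈ A := by
    intro i hi
    cases i with
    | zero => simpa using hb
    | succ i =>
      by_contra h
      exact Nat.find_min hleave (m := i) (by omega) h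
  -- everything in `A` is of this form
  have hform : ∀ a ∈ A, ∃ i, i ≤ m ∧ a = b - i • g := by
    intro a ha
    -- first reach `b` from `a`
    obtain ⟨j, hj⟩ := hg (b - a)
    have hex : ∃ j : ℕ, b = a + j • g := ⟨j, by rw [← hj]; abel⟩
    set t := Nat.find hex with ht
    have htspec : b = a + t • g := Nat.find_spec hex
    have htmin : ∀ i, i < t → b ≠ a + i • g := fun i hi => Nat.find_min hex hi
    have hpath : ∀ i, i ≤ t → a + i • g ∈ A := by
      intro i
      induction i with
      | zero => intro _; simpa using ha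
      | succ i ih =>
        intro hi
        have h1 := ih (by omega)
        by_contra h2
        have h3 : a + i • g + g ∉ A := by rwa [succ_nsmul, ← add_assoc] at h2
        exact htmin i (by omega) (huniq _ h1 h3).symm
    refine ⟨t, ?_, by rw [htspec]; abel⟩
    by_contra hcon
    push Not at hcon
    apply hmspec
    have h1 : b - (m + 1) • g = a + (t - (m + 1)) • g := by
      have h2 : t • g = (m + 1) • g + (t - (m + 1)) • g := by
        rw [← add_nsmul]; congr 1; omega
      rw [htspec, h2]; abel
    rw [h1]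
    exact hpath _ (by omega)
  -- injectivity
  have hinj : ∀ i j, i ≤ m → j ≤ m → b - i • g = b - j • g → i = j := by
    have hlt : ∀ i j, i < j → j ≤ m → b - i • g ≠ b - j • g := by
      intro i j hij hjm h
      -- then `b + g = b - (j - i - 1) • g`
      apply hbn
      have h1 : i • g = j • g := sub_right_injective h
      have h2 : j • g = i • g + (j - i) • g := by rw [← add_nsmul]; congr 1; omega
      have h3 : (j - i) • g = 0 := by
        rw [h2] at h1
        exact left_eq_add.mp h1
      have h4 : (j - i) • g = (j - i - 1) • g + g := by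
        rw [← succ_nsmul]; congr 1; omega
      have h5 : g = - ((j - i - 1) • g) := by
        rw [h4] at h3
        exact (neg_eq_of_add_eq_zero_right h3).symm
      have h6 : b + g = b - (j - i - 1) • g := by
        conv_lhs => rw [h5]
        abel
      rw [h6]
      exact hmmin _ (by omega)
    intro i j hi hj h
    rcases lt_trichotomy i j with h1 | h1 | h1
    · exact absurd h (hlt i j h1 hj)
    · exact h1
    · exact absurd h.symm (hlt j i h1 hi)
  have hAimg : A = (Finset.range (m + 1)).image (fun i => b - i • g) := by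
    ext x
    simp only [Finset.mem_image, Finset.mem_range]
    constructor
    · intro hx
      obtain ⟨i, hi, rfl⟩ := hform x hx
      exact ⟨i, by omega, rfl⟩
    · rintro ⟨i, hi, rfl⟩
      exact hmmin i (by omega)
  refine ⟨b - m • g, m, ?_, ?_⟩
  · rw [hAimg, Finset.card_image_of_injOn]
    · simp
    · intro i hi j hj hij
      simp only [Finset.coe_range, Set.mem_Iio] at hi hj
      exact hinj i j (by omega) (by omega) hij
  · rw [hAimg]
    ext x
    rw [mem_J]
    simp only [Finset.mem_image, Finset.mem_range]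
    constructor
    · rintro ⟨i, hi, rfl⟩
      refine ⟨m - i, by omega, ?_⟩
      have : m • g = i • g + (m - i) • g := by rw [← add_nsmul]; congr 1; omega
      rw [this]; abel
    · rintro ⟨i, hi, rfl⟩
      refine ⟨m - i, by omega, ?_⟩
      have : m • g = i • g + (m - i) • g := by rw [← add_nsmul]; congr 1; omega
      rw [this]; abel

theorem X_J {G : Type u} [AddCommGroup G] [Fintype G] [DecidableEq G] (g x : G) (c m p : ℕ) :
    X g c m (J g x p) = J g (m • x) (m * p + (m - 1) * (c - 1)) := by
  unfold X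
  rw [nsmul_J, nsmul_J, J_add]
  simp

/-- The gap condition in the aperiodic case. -/
theorem gap_aperiodic {G : Type u} [AddCommGroup G] [Fintype G] [DecidableEq G] {g : G}
    (hg : ∀ x : G, ∃ i : ℕ, x = i • g) {c k l : ℕ} (hc : 2 ≤ c) (hl : 1 ≤ l) (hkl : l < k)
    {A : Finset G} (hA : A.Nonempty) (hdisj : Disjoint (X g c k A) (X g c l A))
    (hst : stb (X g c k A) = ⊥) :
    ∃ E : ℕ, Nat.gcd (Fintype.card G) (k - l) ∣ E ∧
      l * A.card + (l - 1) * (c - 2) ≤ E ∧
      E + k * A.card + (k - 1) * (c - 2) ≤ Fintype.card G := by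
  classical
  have hXk : (X g c k A).Nonempty := X_nonempty hA
  have hXl : (X g c l A).Nonempty := X_nonempty hA
  have hXlne : X g c l A ≠ Finset.univ := by
    intro h
    obtain ⟨y, hy⟩ := hXk
    exact Finset.disjoint_left.mp hdisj hy (by rw [h]; exact Finset.mem_univ y)
  have hXkne : X g c k A ≠ Finset.univ := by
    intro h
    obtain ⟨y, hy⟩ := hXl
    exact Finset.disjoint_left.mp hdisj (by rw [h]; exact Finset.mem_univ y) hy
  have hgcdpos : 0 < Nat.gcd (Fintype.card G) (k - l) :=
    Nat.gcd_pos_of_pos_right _ (by omega)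
  have hgcdle : Nat.gcd (Fintype.card G) (k - l) ≤ k - l := Nat.gcd_le_right _ (by omega)
  have hgcddvd : Nat.gcd (Fintype.card G) (k - l) ∣ k - l := Nat.gcd_dvd_right _ _
  have hgcddvdN : Nat.gcd (Fintype.card G) (k - l) ∣ Fintype.card G := Nat.gcd_dvd_left _ _
  by_cases hbig : A.card + 2 ≤ (A + J g 0 1).card
  · -- not an interval: Kneser gives room
    have hl1 := lower_bound hg hc hl hA hXlne
    have hgne : g ≠ 0 := by
      rintro rfl
      have h1 : J (0 : G) 0 1 = {0} := by
        ext z
        rw [mem_J]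
        simp only [smul_zero, add_zero, Finset.mem_singleton]
        constructor
        · rintro ⟨_, _, h⟩; exact h.symm
        · rintro rfl; exact ⟨0, by omega, rfl⟩
      rw [h1, Finset.add_singleton] at hbig
      simp at hbig
    obtain ⟨k, rfl⟩ : ∃ k', k = k' + 1 := ⟨k - 1, by omega⟩
    obtain ⟨c, rfl⟩ : ∃ c', c = c' + 2 := ⟨c - 2, by omega⟩
    have hXdef : X g (c + 2) (k + 1) A = (A + k • (A + J g 0 1)) + (k * c) • J g 0 1 := by
      unfold X
      have h1 : (k + 1 - 1) * (c + 2 - 1) = k + k * c := by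
        have : c + 2 - 1 = c + 1 := by omega
        rw [this]; simp; ring
      have e1 : (k + k * c) • J g 0 1 = k • J g 0 1 + (k * c) • J g 0 1 := add_nsmul _ _ _
      have e2 : k • (A + J g 0 1) = k • A + k • J g 0 1 := nsmul_add _ _ _
      have e3 : (k + 1) • A = A + k • A := by rw [succ_nsmul, add_comm]
      rw [h1, e1, e2, e3, add_assoc, add_assoc, add_assoc]
    have hst1 : stb (A + k • (A + J g 0 1)) = ⊥ := by
      rw [eq_bot_iff, ← hst, hXdef]
      exact stb_le_stb_add_left _ _
    have hAJ : (A + J g 0 1).Nonempty := hA.add (J_nonempty g 0 1)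
    have h1 := card_add_nsmul hA hAJ k hst1
    rw [hXdef] at hst
    have h2 := card_add_nsmul (hA.add hAJ.nsmul) (J_nonempty g 0 1) (k * c) hst
    rw [card_J_one hgne, ← hXdef] at h2
    have h3 : k * (A.card + 2) ≤ k * (A + J g 0 1).card := Nat.mul_le_mul_left _ hbig
    have h4 : (k + 1) * A.card + k * c + k ≤ (X g (c + 2) (k + 1) A).card := by
      nlinarith
    have h5 : (X g (c + 2) (k + 1) A).card + (X g (c + 2) l A).card ≤ Fintype.card G := by
      rw [← Finset.card_union_of_disjoint hdisj]
      exact Finset.card_le_univ _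
    simp only [Nat.add_sub_cancel] at *
    -- choose the multiple
    set d := Nat.gcd (Fintype.card G) (k + 1 - l) with hd
    set lo := l * A.card + (l - 1) * c with hlo
    refine ⟨(lo + (d - 1)) / d * d, Dvd.intro_left _ rfl, ?_, ?_⟩
    · have := Nat.div_add_mod (lo + (d - 1)) d
      have h6 := Nat.mod_lt (lo + (d - 1)) hgcdpos
      have h7 : (lo + (d - 1)) / d * d = d * ((lo + (d - 1)) / d) := Nat.mul_comm _ _
      omega
    · have h6 := Nat.div_mul_le_self (lo + (d - 1)) d
      omega
  · -- interval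
    push Not at hbig
    have hAne : A ≠ Finset.univ := by
      intro h
      apply hXkne
      unfold X
      obtain ⟨k, rfl⟩ : ∃ k', k = k' + 1 := ⟨k - 1, by omega⟩
      rw [succ_nsmul, h]
      rw [add_assoc, add_comm (Finset.univ : Finset G), ← add_assoc]
      rw [Finset.eq_univ_iff_forall]
      intro x
      obtain ⟨y, hy⟩ := ((Finset.univ_nonempty (α := G)).nsmul (n := k)).add
        ((J_nonempty g 0 1).nsmul (n := (k + 1 - 1) * (c - 1)))
      rw [Finset.mem_add]
      exact ⟨y, hy, x - y, Finset.mem_univ _, by abel⟩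
    obtain ⟨x, p, hp, hAJ⟩ := eq_J_of_card hg hA (by omega) hAne
    rw [hAJ, X_J, X_J] at hdisj
    rw [← hp]
    obtain ⟨y, hy⟩ := hg x
    set N := Fintype.card G with hN
    have hNpos : 0 < N := Fintype.card_pos
    have hNg : N • g = 0 := card_nsmul_eq_zero
    set D := ((k - l) * y) % N with hD
    have hDlt : D < N := Nat.mod_lt _ hNpos
    have hDg : D • g = (k - l) • x := by
      rw [hy, ← mul_nsmul', mul_comm]
      have h1 := Nat.div_add_mod ((k - l) * y) N
      have h2 : ((k - l) * y) • g = D • g := by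
        conv_lhs => rw [← h1]
        rw [add_nsmul, mul_comm, mul_nsmul', hNg]
        simp [hD]
      rw [← h2, mul_comm]
    have hkx : k • x = l • x + D • g := by
      rw [hDg, ← add_nsmul]; congr 1; omega
    have hdvdD : Nat.gcd N (k - l) ∣ D := by
      rw [hD]
      exact (Nat.dvd_mod_iff hgcddvdN).mpr (Dvd.dvd.mul_right hgcddvd y)
    refine ⟨D, hdvdD, ?_, ?_⟩
    · by_contra hcon
      push Not at hcon
      have hmem1 : k • x ∈ J g (k • x) (k * p + (k - 1) * (c - 1)) :=
        mem_J.mpr ⟨0, Nat.zero_le _, by simp⟩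
      apply Finset.disjoint_left.mp hdisj hmem1
      · refine mem_J.mpr ⟨D, ?_, hkx.symm⟩
        obtain ⟨l, rfl⟩ : ∃ l', l = l' + 1 := ⟨l - 1, by omega⟩
        obtain ⟨c, rfl⟩ : ∃ c', c = c' + 2 := ⟨c - 2, by omega⟩
        have h1 : c + 2 - 1 = c + 1 := by omega
        simp only [Nat.add_sub_cancel, h1] at hcon ⊢
        nlinarith
    · by_contra hcon
      push Not at hcon
      have hmem2 : l • x ∈ J g (l • x) (l * p + (l - 1) * (c - 1)) :=
        mem_J.mpr ⟨0, Nat.zero_le _, by simp⟩
      apply Finset.disjoint_right.mp hdisj hmem2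
      · refine mem_J.mpr ⟨N - D, ?_, ?_⟩
        · obtain ⟨k, rfl⟩ : ∃ k', k = k' + 1 := ⟨k - 1, by omega⟩
          obtain ⟨c, rfl⟩ : ∃ c', c = c' + 2 := ⟨c - 2, by omega⟩
          have h1 : c + 2 - 1 = c + 1 := by omega
          simp only [Nat.add_sub_cancel, h1] at hcon ⊢
          have : N < D + ((k + 1) * (p + 1) + k * c) := by omega
          have h2 : (k + 1) * (p + 1) + k * c = (k + 1) * p + k * (c + 1) + 1 := by ring
          omega
        · rw [hkx, add_assoc, ← add_nsmul]
          have : D + (N - D) = N := by omega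
          rw [this, hNg, add_zero]

/-- The gap condition in general. -/
theorem gap {G : Type u} [AddCommGroup G] [Fintype G] [DecidableEq G] {g : G}
    (hg : ∀ x : G, ∃ i : ℕ, x = i • g) {c k l : ℕ} (hc : 2 ≤ c) (hl : 1 ≤ l) (hkl : l < k)
    {A : Finset G} (hA : A.Nonempty) (hdisj : Disjoint (X g c k A) (X g c l A)) :
    ∃ E : ℕ, Nat.gcd (Fintype.card G) (k - l) ∣ E ∧
      l * A.card + (l - 1) * (c - 2) ≤ E ∧
      E + k * A.card + (k - 1) * (c - 2) ≤ Fintype.card G := by
  classical
  set H := stb (X g c k A) with hH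
  have hcardA : A.card ≤ (qim H A).card * Nat.card H := by
    rw [← card_thick']
    exact card_le_card_thick H A
  have hHpos : 0 < Nat.card H := natcard_pos H
  have hst : stb (qim H (X g c k A)) = ⊥ := stb_qim _
  have hdisj' : Disjoint (qim H (X g c k A)) (qim H (X g c l A)) := by
    rw [Finset.disjoint_left]
    intro q hq1 hq2
    obtain ⟨y, hy, hyq⟩ := Finset.mem_image.mp hq2
    rw [← hyq] at hq1
    exact Finset.disjoint_left.mp hdisj (mem_qim_stb.mp hq1) hy
  rw [qim_X] at hst
  rw [qim_X, qim_X] at hdisj'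
  have hg' : ∀ x : G ⧸ H, ∃ i : ℕ, x = i • (QuotientAddGroup.mk g : G ⧸ H) := by
    intro x
    obtain ⟨y, rfl⟩ := QuotientAddGroup.mk_surjective x
    obtain ⟨i, hi⟩ := hg y
    exact ⟨i, by rw [hi]; rfl⟩
  obtain ⟨E, hE1, hE2, hE3⟩ := gap_aperiodic hg' hc hl hkl (hA.image _) hdisj' hst
  have hN : Fintype.card G = Fintype.card (G ⧸ H) * Nat.card H := by
    rw [← Nat.card_eq_fintype_card, ← Nat.card_eq_fintype_card]
    exact AddSubgroup.card_eq_card_quotient_mul_card_addSubgroup H
  refine ⟨E * Nat.card H, ?_, ?_, ?_⟩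
  · -- divisibility
    have h1 : Nat.gcd (Fintype.card G) (k - l) ∣
        Nat.gcd (Fintype.card (G ⧸ H)) (k - l) * Nat.card H := by
      rw [← Nat.gcd_mul_right, hN]
      exact Nat.gcd_dvd_gcd_of_dvd_right _ (Dvd.intro _ rfl)
    exact h1.trans (Nat.mul_dvd_mul_right hE1 _)
  · calc l * A.card + (l - 1) * (c - 2)
        ≤ l * ((qim H A).card * Nat.card H) + (l - 1) * (c - 2) * Nat.card H := by
          apply Nat.add_le_add
          · exact Nat.mul_le_mul_left _ hcardA
          · exact Nat.le_mul_of_pos_right _ hHpos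
      _ = (l * (qim H A).card + (l - 1) * (c - 2)) * Nat.card H := by ring
      _ ≤ E * Nat.card H := Nat.mul_le_mul_right _ hE2
  · rw [hN]
    calc E * Nat.card H + k * A.card + (k - 1) * (c - 2)
        ≤ E * Nat.card H + k * ((qim H A).card * Nat.card H) + (k - 1) * (c - 2) * Nat.card H := by
          apply Nat.add_le_add
          · exact Nat.add_le_add_left (Nat.mul_le_mul_left _ hcardA) _
          · exact Nat.le_mul_of_pos_right _ hHpos
      _ = (E + k * (qim H A).card + (k - 1) * (c - 2)) * Nat.card H := by ring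
      _ ≤ _ := Nat.mul_le_mul_right _ hE3

end Pool.Agent.H43.NoisySumFree
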