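import Mathlib

set_option autoImplicit false
set_option linter.unusedSectionVars false

namespace Pool.Agent.H43.RelaxTime

open Finset

section Wirtinger

/-- Discrete Wirtinger inequality on a cycle with `N` vertices. -/
theorem wirtinger {N : ℕ} [NeZero N] (F : ZMod N → ℂ) (h0 : ∑ j, F j = 0) :
    (2 - 2 * Real.cos (2 * Real.pi / N)) * ∑ j, ‖F j‖ ^ 2 ≤ ∑ j, ‖F (j + 1) - F j‖ ^ 2 := by
  classical
  set e : AddChar (ZMod N) ℂ := ZMod.stdAddChar with he
  -- Fourier transform
  let T : (ZMod N → ℂ) → ZMod N → ℂ := fun Φ k => ∑ j, Φ j * e (j * k)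
  have hconj : ∀ x : ZMod N, (starRingEnd ℂ) (e x) = e (-x) := by
    intro x
    rw [he, ZMod.stdAddChar_apply, ZMod.stdAddChar_apply, AddChar.map_neg_eq_inv]
    rw [Circle.coe_inv_eq_conj]
  -- Parseval
  have hpars : ∀ Φ : ZMod N → ℂ, ∑ k, ‖T Φ k‖ ^ 2 = N * ∑ j, ‖Φ j‖ ^ 2 := by
    intro Φ
    have h1 : ∀ z : ℂ, ((‖z‖ ^ 2 : ℝ) : ℂ) = z * (starRingEnd ℂ) z := by
      intro z
      rw [Complex.mul_conj, Complex.normSq_eq_norm_sq]
    have h2 : ((∑ k, ‖T Φ k‖ ^ 2 : ℝ) : ℂ) = ((N * ∑ j, ‖Φ j‖ ^ 2 : ℝ) : ℂ) := by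
      push_cast
      have h3 : ∀ k, ((‖T Φ k‖ : ℂ)) ^ 2 = ∑ i, ∑ j, Φ i * (starRingEnd ℂ) (Φ j) *
          e (k * (i - j)) := by
        intro k
        have h4 := h1 (T Φ k)
        push_cast at h4
        rw [h4]
        simp only [T, map_sum, map_mul]
        rw [Finset.sum_mul_sum]
        refine Finset.sum_congr rfl fun i _ => Finset.sum_congr rfl fun j _ => ?_
        rw [hconj]
        have h5 : e (k * (i - j)) = e (i * k) * e (-(j * k)) := by
          rw [← AddChar.map_add_eq_mul]; congr 1; ring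
        rw [h5]; ring
      simp_rw [h3]
      rw [Finset.sum_comm]
      have h6 : ∀ i, ∑ k, ∑ j, Φ i * (starRingEnd ℂ) (Φ j) * e (k * (i - j)) =
          (N : ℂ) * ((‖Φ i‖ : ℂ)) ^ 2 := by
        intro i
        rw [Finset.sum_comm]
        have h7 : ∀ j, ∑ k, Φ i * (starRingEnd ℂ) (Φ j) * e (k * (i - j)) =
            if j = i then (N : ℂ) * ((‖Φ i‖ : ℂ)) ^ 2 else 0 := by
          intro j
          rw [← Finset.mul_sum, AddChar.sum_mulShift (i - j) (ZMod.isPrimitive_stdAddChar N)]
          by_cases hij : j = i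
          · subst hij
            have h4 := h1 (Φ j)
            push_cast at h4
            simp only [sub_self, if_true, ZMod.card]
            rw [h4]; ring
          · rw [if_neg hij, if_neg (sub_ne_zero.mpr (Ne.symm hij))]
            simp
        simp_rw [h7]
        simp
      simp_rw [h6]
      rw [Finset.mul_sum]
    exact_mod_cast h2
  -- transform of the difference
  have hdiff : ∀ k, T (fun j => F (j + 1) - F j) k = (e (-k) - 1) * T F k := by
    intro k
    simp only [T, sub_mul, Finset.sum_sub_distrib, one_mul]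
    congr 1
    rw [Finset.mul_sum]
    rw [← Equiv.sum_comp (Equiv.addRight (1 : ZMod N)) (fun j => e (-k) * (F j * e (j * k)))]
    refine Finset.sum_congr rfl fun j _ => ?_
    simp only [Equiv.coe_addRight]
    have : e (j * k) = e (-k) * e ((j + 1) * k) := by
      rw [← AddChar.map_add_eq_mul]; congr 1; ring
    rw [this]; ring
  have hT0 : T F 0 = 0 := by
    simp only [T, mul_zero, AddChar.map_zero_eq_one, mul_one]
    exact h0
  -- lower bound on |e(-k) - 1|
  have hlow : ∀ k : ZMod N, k ≠ 0 →
      2 - 2 * Real.cos (2 * Real.pi / N) ≤ ‖e (-k) - 1‖ ^ 2 := by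
    intro k hk
    have hNpos : (0 : ℝ) < N := by
      have := NeZero.pos N
      exact_mod_cast this
    set r := k.val with hr
    have hr1 : 1 ≤ r := by
      have : k.val ≠ 0 := by
        intro h
        exact hk ((ZMod.val_eq_zero k).mp h)
      omega
    have hr2 : r ≤ N - 1 := by
      have := ZMod.val_lt k
      omega
    have hNge : 1 ≤ N := NeZero.pos N
    have hk' : -k = ((-(r : ℤ) : ℤ) : ZMod N) := by
      rw [hr]; push_cast; rw [ZMod.natCast_zmod_val]
    have hform : e (-k) = Complex.exp (((2 * Real.pi * (-(r : ℝ)) / N : ℝ) : ℂ) * Complex.I) := by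
      rw [hk', he, ZMod.stdAddChar_coe]
      congr 1
      push_cast
      ring
    have hnorm : ‖e (-k) - 1‖ ^ 2 = 2 - 2 * Real.cos (2 * Real.pi * r / N) := by
      rw [hform, ← Complex.normSq_eq_norm_sq, Complex.normSq_apply]
      have hre : (Complex.exp (((2 * Real.pi * (-(r : ℝ)) / N : ℝ) : ℂ) * Complex.I) - 1).re =
          Real.cos (2 * Real.pi * r / N) - 1 := by
        rw [Complex.sub_re, Complex.exp_ofReal_mul_I_re, Complex.one_re]
        congr 1
        rw [← Real.cos_neg]; congr 1; ring
      have him : (Complex.exp (((2 * Real.pi * (-(r : ℝ)) / N : ℝ) : ℂ) * Complex.I) - 1).im =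
          - Real.sin (2 * Real.pi * r / N) := by
        rw [Complex.sub_im, Complex.exp_ofReal_mul_I_im, Complex.one_im, sub_zero,
          ← Real.sin_neg]
        congr 1; ring
      rw [hre, him]
      have := Real.sin_sq_add_cos_sq (2 * Real.pi * r / N)
      nlinarith
    rw [hnorm]
    have hcos : Real.cos (2 * Real.pi * r / N) ≤ Real.cos (2 * Real.pi / N) := by
      have hpi := Real.pi_pos
      have hr1' : (1 : ℝ) ≤ r := by exact_mod_cast hr1
      have hr2' : (r : ℝ) ≤ N - 1 := by
        have : (r : ℝ) ≤ ((N - 1 : ℕ) : ℝ) := by exact_mod_cast hr2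
        rw [Nat.cast_sub hNge] at this
        simpa using this
      have hx1 : 2 * Real.pi / N ≤ 2 * Real.pi * r / N := by
        apply div_le_div_of_nonneg_right _ hNpos.le
        nlinarith
      have hx2 : 2 * Real.pi * r / N ≤ 2 * Real.pi - 2 * Real.pi / N := by
        rw [div_le_iff₀ hNpos]
        have : (2 * Real.pi - 2 * Real.pi / N) * N = 2 * Real.pi * (N - 1) := by
          field_simp
        rw [this]
        nlinarith
      have hx0 : 0 ≤ 2 * Real.pi / N := by positivity
      by_cases hle : 2 * Real.pi * r / N ≤ Real.pi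
      · exact Real.cos_le_cos_of_nonneg_of_le_pi hx0 hle hx1
      · push Not at hle
        have h1 : Real.cos (2 * Real.pi * r / N) = Real.cos (2 * Real.pi - 2 * Real.pi * r / N) := by
          rw [Real.cos_two_pi_sub]
        rw [h1]
        apply Real.cos_le_cos_of_nonneg_of_le_pi hx0
        · linarith
        · linarith
    linarith
  -- conclusion
  have hNpos : (0 : ℝ) < N := by
    have := NeZero.pos N
    exact_mod_cast this
  have hP1 := hpars F
  have hP2 := hpars (fun j => F (j + 1) - F j)
  have hmain : (2 - 2 * Real.cos (2 * Real.pi / N)) * ∑ k, ‖T F k‖ ^ 2 ≤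
      ∑ k, ‖T (fun j => F (j + 1) - F j) k‖ ^ 2 := by
    rw [Finset.mul_sum]
    apply Finset.sum_le_sum
    intro k _
    rw [hdiff, norm_mul, mul_pow]
    by_cases hk : k = 0
    · rw [hk, hT0]; simp
    · exact mul_le_mul_of_nonneg_right (hlow k hk) (by positivity)
  rw [hP1, hP2] at hmain
  have h9 : (N : ℝ) * ((2 - 2 * Real.cos (2 * Real.pi / N)) * ∑ j, ‖F j‖ ^ 2) ≤
      N * ∑ j, ‖F (j + 1) - F j‖ ^ 2 := by
    calc (N : ℝ) * ((2 - 2 * Real.cos (2 * Real.pi / N)) * ∑ j, ‖F j‖ ^ 2)
        = (2 - 2 * Real.cos (2 * Real.pi / N)) * (N * ∑ j, ‖F j‖ ^ 2) := by ring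
      _ ≤ _ := hmain
  exact le_of_mul_le_mul_left h9 hNpos

end Wirtinger

section Tour

variable {V : Type*} [Fintype V] [DecidableEq V] (G : SimpleGraph V) [DecidableRel G.Adj]

/-- In a connected graph there is a closed walk which uses every dart exactly once. -/
theorem exists_tour (hG : G.Connected) :
    ∃ (a : V) (p : G.Walk a a), p.darts.Nodup ∧ ∀ d : G.Dart, d ∈ p.darts := by
  classical
  obtain ⟨a0⟩ := hG.nonempty
  -- closed walks with distinct darts whose dart set is symmetric
  let P : ℕ → Prop := fun n => ∃ (a : V) (p : G.Walk a a), p.darts.Nodup ∧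
    (∀ d ∈ p.darts, d.symm ∈ p.darts) ∧ p.darts.length = n
  have hP0 : P 0 := ⟨a0, SimpleGraph.Walk.nil, by simp, by simp, by simp⟩
  have hbound : ∀ n, P n → n ≤ Fintype.card G.Dart := by
    rintro n ⟨a, p, hnd, _, rfl⟩
    exact hnd.length_le_card
  obtain ⟨n, hn, hmax⟩ : ∃ n, P n ∧ ∀ m, P m → m ≤ n := by
    have := Nat.findGreatest_spec (P := P) (Nat.zero_le (Fintype.card G.Dart)) hP0
    refine ⟨_, this, fun m hm => Nat.le_findGreatest (hbound m hm) hm⟩
  obtain ⟨a, p, hnd, hsymm, hlen⟩ := hn
  refine ⟨a, p, hnd, ?_⟩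
  by_contra hcon
  push Not at hcon
  obtain ⟨d0, hd0⟩ := hcon
  -- there is a missing dart starting on the walk
  have hex : ∃ d : G.Dart, d.fst ∈ p.support ∧ d ∉ p.darts := by
    by_contra hno
    push Not at hno
    have hclosed : ∀ u v, G.Adj u v → u ∈ p.support → v ∈ p.support := by
      intro u v huv hu
      have h1 := hno ⟨(u, v), huv⟩ hu
      exact p.dart_snd_mem_support_of_mem_darts h1
    have hall : ∀ v, v ∈ p.support := by
      intro v
      obtain ⟨w⟩ := hG.preconnected a v
      have : ∀ {x y : V} (w : G.Walk x y), x ∈ p.support → y ∈ p.support := by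
        intro x y w
        induction w with
        | nil => exact id
        | cons h _ ih => exact fun hx => ih (hclosed _ _ h hx)
      exact this w p.start_mem_support
    exact hd0 (hno d0 (hall _))
  obtain ⟨d, hdsupp, hdn⟩ := hex
  have hdsn : d.symm ∉ p.darts := by
    intro h
    have := hsymm _ h
    rw [SimpleGraph.Dart.symm_symm] at this
    exact hdn this
  -- the longer walk
  set c := p.rotate d.fst hdsupp with hc
  have hrot : c.darts.Perm p.darts := (p.rotate_darts d.fst hdsupp).perm
  let q : G.Walk d.fst d.fst := c.append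
    (SimpleGraph.Walk.cons d.adj (SimpleGraph.Walk.cons d.adj.symm SimpleGraph.Walk.nil))
  have hqd : q.darts = c.darts ++ [d, d.symm] := by
    simp only [q, SimpleGraph.Walk.darts_append, SimpleGraph.Walk.darts_cons,
      SimpleGraph.Walk.darts_nil]
    rfl
  have hq : P (n + 2) := by
    refine ⟨d.fst, q, ?_, ?_, ?_⟩
    · rw [hqd, List.nodup_append]
      refine ⟨hrot.nodup_iff.mpr hnd, ?_, ?_⟩
      · simp only [List.nodup_cons, List.mem_cons, List.not_mem_nil, or_false, not_false_eq_true,
          List.nodup_nil, and_true]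
        exact fun h => (SimpleGraph.Dart.symm_ne d) h.symm
      · intro x hx y hy hxy
        subst hxy
        rw [hrot.mem_iff] at hx
        simp only [List.mem_cons, List.not_mem_nil, or_false] at hy
        rcases hy with rfl | rfl
        · exact hdn hx
        · exact hdsn hx
    · intro x hx
      rw [hqd] at hx ⊢
      rw [List.mem_append] at hx ⊢
      rcases hx with hx | hx
      · left
        rw [hrot.mem_iff] at hx ⊢
        exact hsymm x hx
      · right
        simp only [List.mem_cons, List.not_mem_nil, or_false] at hx ⊢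
        rcases hx with rfl | rfl
        · exact Or.inr rfl
        · left; simp
    · rw [hqd, List.length_append, hrot.length_eq, hlen]
      rfl
  have := hmax _ hq
  omega

end Tour

section Main

variable {V : Type*} [Fintype V] [DecidableEq V] (G : SimpleGraph V) [DecidableRel G.Adj]

theorem sum_darts_fst (h : V → ℝ) :
    ∑ d : G.Dart, h d.fst = ∑ v, (G.degree v : ℝ) * h v := by
  classical
  rw [← Finset.sum_fiberwise (s := (Finset.univ : Finset G.Dart)) (g := fun d => d.fst)]
  refine Finset.sum_congr rfl fun v _ => ?_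
  rw [Finset.sum_congr rfl (g := fun _ => h v)]
  · rw [Finset.sum_const, nsmul_eq_mul, G.dart_fst_fiber_card_eq_degree]
  · intro d hd
    rw [(Finset.mem_filter.mp hd).2]

theorem sum_darts_pair (h : V → V → ℝ) :
    ∑ d : G.Dart, h d.fst d.snd = ∑ u, ∑ v, (if G.Adj u v then h u v else 0) := by
  classical
  rw [← Finset.sum_product']
  rw [← Finset.sum_filter (s := (Finset.univ ×ˢ Finset.univ : Finset (V × V)))
    (p := fun x => G.Adj x.1 x.2) (f := fun x => h x.1 x.2)]
  refine Finset.sum_bij (fun (d : G.Dart) _ => d.toProd) ?_ ?_ ?_ ?_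
  · intro d _
    simp only [Finset.mem_filter, Finset.mem_product, Finset.mem_univ, and_self, true_and]
    exact d.adj
  · intro d _ d' _ hdd
    exact SimpleGraph.Dart.ext _ _ hdd
  · rintro ⟨u, v⟩ huv
    simp only [Finset.mem_filter, Finset.mem_product, Finset.mem_univ, and_self, true_and] at huv
    exact ⟨⟨(u, v), huv⟩, Finset.mem_univ _, rfl⟩
  · intro d _
    rfl

theorem getVert_dart {a b : V} (p : G.Walk a b) (i : ℕ) (hi : i < p.darts.length) :
    (p.darts[i]).fst = p.getVert i ∧ (p.darts[i]).snd = p.getVert (i + 1) := by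
  induction p generalizing i with
  | nil => simp at hi
  | cons h p ih =>
    cases i with
    | zero => simp
    | succ i =>
      simp only [SimpleGraph.Walk.darts_cons, List.getElem_cons_succ,
        SimpleGraph.Walk.getVert_cons_succ]
      apply ih

theorem sum_zmod {N : ℕ} [hN : NeZero N] (φ : ℕ → ℝ) :
    ∑ j : ZMod N, φ j.val = ∑ i ∈ Finset.range N, φ i := by
  cases N with
  | zero => exact absurd rfl hN.out
  | succ k => exact Fin.sum_univ_eq_sum_range φ (k + 1)

theorem sum_tour {a : V} (p : G.Walk a a) (hnd : p.darts.Nodup) (hall : ∀ d : G.Dart, d ∈ p.darts)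
    {N : ℕ} [NeZero N] (hN : p.darts.length = N) (h : V → V → ℝ) :
    ∑ j : ZMod N, h (p.getVert j.val) (p.getVert (j + 1).val) = ∑ d : G.Dart, h d.fst d.snd := by
  classical
  have h1 : (Finset.univ : Finset G.Dart) = p.darts.toFinset := by
    ext d
    simp [hall d]
  have hlen : p.length = N := by rw [← hN, SimpleGraph.Walk.length_darts]
  have hval : ∀ j : ZMod N, p.getVert (j + 1).val = p.getVert (j.val + 1) := by
    intro j
    have h2 : j + 1 = ((j.val + 1 : ℕ) : ZMod N) := by
      push_cast
      rw [ZMod.natCast_zmod_val]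
    rw [h2, ZMod.val_natCast]
    have h3 := ZMod.val_lt j
    rcases Nat.lt_or_ge (j.val + 1) N with h4 | h4
    · rw [Nat.mod_eq_of_lt h4]
    · have h5 : j.val + 1 = N := by omega
      rw [h5, Nat.mod_self, SimpleGraph.Walk.getVert_zero]
      conv_rhs => rw [← hlen, SimpleGraph.Walk.getVert_length]
  simp_rw [hval]
  rw [sum_zmod (fun i => h (p.getVert i) (p.getVert (i + 1)))]
  rw [h1, List.sum_toFinset _ hnd, ← Fin.sum_univ_fun_getElem p.darts (fun d => h d.fst d.snd),
    ← hN, ← Fin.sum_univ_eq_sum_range]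
  refine Finset.sum_congr rfl fun i _ => ?_
  obtain ⟨h2, h3⟩ := getVert_dart G p i.val i.isLt
  rw [h2, h3]

/-- Sharp bound on the relaxation time of a connected graph with `m` edges. -/
theorem poincare (hG : G.Connected) {m : ℕ} (hm : G.edgeFinset.card = m) (hm1 : 1 ≤ m)
    (f : V → ℝ) : ∃ c : ℝ,
      (1 - Real.cos (Real.pi / m)) * ∑ v, (G.degree v : ℝ) * (f v - c) ^ 2 ≤
        (1 / 2 : ℝ) * ∑ u, ∑ v, (if G.Adj u v then (f u - f v) ^ 2 else 0) := by
  classical
  obtain ⟨a, p, hnd, hall⟩ := exists_tour G hG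
  set N := 2 * m with hN
  have hNe : NeZero N := ⟨by omega⟩
  have hcard : p.darts.length = N := by
    have h1 : p.darts.toFinset = Finset.univ := by
      ext d; simp [hall d]
    have h2 := List.toFinset_card_of_nodup hnd
    rw [h1, Finset.card_univ, G.dart_card_eq_twice_card_edges, hm] at h2
    exact h2.symm
  set c : ℝ := (∑ j : ZMod N, f (p.getVert j.val)) / N with hc
  have hNpos : (0 : ℝ) < N := by
    have := hNe.pos
    exact_mod_cast this
  refine ⟨c, ?_⟩
  have hW := wirtinger (N := N) (fun j => ((f (p.getVert j.val) - c : ℝ) : ℂ)) (by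
    rw [← Complex.ofReal_sum, Finset.sum_sub_distrib, Finset.sum_const, Finset.card_univ,
      ZMod.card, nsmul_eq_mul, hc, mul_div_cancel₀ _ hNpos.ne', sub_self]
    simp)
  have hleft : ∑ j : ZMod N, ‖((f (p.getVert j.val) - c : ℝ) : ℂ)‖ ^ 2 =
      ∑ v, (G.degree v : ℝ) * (f v - c) ^ 2 := by
    have h1 := sum_tour G p hnd hall hcard (fun u _ => (f u - c) ^ 2)
    rw [← sum_darts_fst G (fun v => (f v - c) ^ 2), ← h1]
    refine Finset.sum_congr rfl fun j _ => ?_
    rw [Complex.norm_real, Real.norm_eq_abs, sq_abs]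
  have hright : ∑ j : ZMod N, ‖((f (p.getVert (j + 1).val) - c : ℝ) : ℂ) -
      ((f (p.getVert j.val) - c : ℝ) : ℂ)‖ ^ 2 =
      ∑ u, ∑ v, (if G.Adj u v then (f u - f v) ^ 2 else 0) := by
    rw [← sum_darts_pair G (fun u v => (f u - f v) ^ 2),
      ← sum_tour G p hnd hall hcard (fun u v => (f u - f v) ^ 2)]
    refine Finset.sum_congr rfl fun j _ => ?_
    rw [← Complex.ofReal_sub, Complex.norm_real, Real.norm_eq_abs, sq_abs]
    ring
  have hcos : (2 * Real.pi / (N : ℝ)) = Real.pi / m := by
    rw [hN]; push_cast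
    have hmpos : (0 : ℝ) < m := by exact_mod_cast hm1
    field_simp
  rw [hleft, hright, hcos] at hW
  linarith

end Main

end Pool.Agent.H43.RelaxTime
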