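import Mathlib

set_option autoImplicit false
set_option linter.unusedSectionVars false

/-!
Core of the proof that every strong `T_{C_4}`-on is almost everywhere equal to a Borel strong one.
-/

namespace Pool.Agent.H43.TheonC4

open MeasureTheory Filter Set

/-- The closed unit interval. -/
abbrev J : Type := unitInterval

/-- No four pairwise distinct vertices span an induced 4-cycle. -/
def C4Free {ι : Type*} (R : ι → ι → Prop) : Prop :=
  ∀ a b c d : ι, a ≠ b → a ≠ c → a ≠ d → b ≠ c → b ≠ d → c ≠ d →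
    R a b → R b c → R c d → R d a → ¬ R a c → ¬ R b d → False

/-- Horn step: replacing the edges at one vertex by their eventual values keeps `C4Free`. -/
theorem c4Free_eventually {ι : Type*} (A : ℕ → ι → ι → Prop) (v : ι)
    (hconst : ∀ i j, i ≠ v → j ≠ v → ∀ n m, A n i j ↔ A m i j)
    (hA : ∀ᶠ n in atTop, C4Free (A n)) :
    C4Free (fun i j => ∀ᶠ n in atTop, A n i j) := by
  intro a b c d hab hac had hbc hbd hcd h1 h2 h3 h4 h5 h6
  by_cases hv : a = v ∨ c = v
  · have hb : b ≠ v := by rcases hv with rfl | rfl <;> [exact hab.symm; exact hbc]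
    have hd : d ≠ v := by rcases hv with rfl | rfl <;> [exact had.symm; exact hcd.symm]
    have h7 : ∀ n, ¬ A n b d := by
      intro n hn
      exact h6 (Eventually.of_forall fun m => (hconst b d hb hd n m).mp hn)
    apply h5
    filter_upwards [h1, h2, h3, h4, hA] with n e1 e2 e3 e4 e5
    by_contra h8
    exact e5 a b c d hab hac had hbc hbd hcd e1 e2 e3 e4 h8 (h7 n)
  · push Not at hv
    have h7 : ∀ n, ¬ A n a c := by
      intro n hn
      exact h5 (Eventually.of_forall fun m => (hconst a c hv.1 hv.2 n m).mp hn)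
    apply h6
    filter_upwards [h1, h2, h3, h4, hA] with n e1 e2 e3 e4 e5
    by_contra h8
    exact e5 a b c d hab hac had hbc hbd hcd e1 e2 e3 e4 (h7 n) h8

/-- Relation on `Fin 4` read off from an (oriented) relation with a third parameter. -/
def sy (N : J → J → J → Prop) (x : Fin 4 → J) (t : Fin 4 → Fin 4 → J) (i j : Fin 4) : Prop :=
  (i < j ∧ N (x i) (x j) (t i j)) ∨ (j < i ∧ N (x j) (x i) (t j i))

/-- Iterated eventual value. -/
def F (G : J → J → J → Prop) (p : ℕ → J → J) (v w t : J) : Prop :=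
  ∀ᶠ n in atTop, ∀ᶠ m in atTop, G (p n v) (p m w) t

theorem F_c4Free (G : J → J → J → Prop)
    (hG : ∀ x : Fin 4 → J, Function.Injective x → ∀ t, C4Free (sy G x t))
    (p : ℕ → J → J) (hp : ∀ v, Tendsto (fun n => p n v) atTop (nhds v))
    (x : Fin 4 → J) (hx : StrictMono x) (t : Fin 4 → Fin 4 → J) : C4Free (sy (F G p) x t) := by
  -- a stage from which on approximants are distinct
  obtain ⟨K, hK⟩ : ∃ K : ℕ, ∀ n : Fin 4 → ℕ, (∀ i, K ≤ n i) →
      Function.Injective (fun i => p (n i) (x i)) := by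
    have h1 : ∀ i j : Fin 4, i ≠ j → ∃ K : ℕ, ∀ n m : ℕ, K ≤ n → K ≤ m →
        p n (x i) ≠ p m (x j) := by
      intro i j hij
      have hne : x i ≠ x j := hx.injective.ne hij
      obtain ⟨U, V, hU, hV, hxU, hxV, hUV⟩ := t2_separation hne
      have e1 := (hp (x i)).eventually (hU.mem_nhds hxU)
      have e2 := (hp (x j)).eventually (hV.mem_nhds hxV)
      rw [eventually_atTop] at e1 e2
      obtain ⟨K1, hK1⟩ := e1
      obtain ⟨K2, hK2⟩ := e2
      refine ⟨max K1 K2, fun n m hn hm h => ?_⟩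
      have h3 := hK1 n (le_trans (le_max_left _ _) hn)
      have h4 := hK2 m (le_trans (le_max_right _ _) hm)
      rw [h] at h3
      exact Set.disjoint_left.mp hUV h3 h4
    choose! K0 hK0 using h1
    refine ⟨Finset.univ.sup fun i => Finset.univ.sup fun j => K0 i j, fun n hn i j hij => ?_⟩
    by_contra hne
    have h2 : ∀ k, K0 i j ≤ n k := by
      intro k
      refine le_trans ?_ (hn k)
      exact le_trans (Finset.le_sup (f := fun j => K0 i j) (Finset.mem_univ j))
        (Finset.le_sup (f := fun i => Finset.univ.sup fun j => K0 i j) (Finset.mem_univ i))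
    exact hK0 i j hne (n i) (n j) (h2 i) (h2 j) hij
  -- the four level relation
  let A : ℕ → ℕ → ℕ → ℕ → Fin 4 → Fin 4 → Prop := fun n0 n1 n2 n3 i j =>
    (i < j ∧ G (p (![n0, n1, n2, n3] i) (x i)) (p (![n0, n1, n2, n3] j) (x j)) (t i j)) ∨
    (j < i ∧ G (p (![n0, n1, n2, n3] j) (x j)) (p (![n0, n1, n2, n3] i) (x i)) (t j i))
  have hA : ∀ n0 n1 n2 n3, K ≤ n0 → K ≤ n1 → K ≤ n2 → K ≤ n3 → C4Free (A n0 n1 n2 n3) := by
    intro n0 n1 n2 n3 h0 h1 h2 h3
    exact hG (fun i => p (![n0, n1, n2, n3] i) (x i)) (hK ![n0, n1, n2, n3] (by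
      intro i; fin_cases i <;> simpa)) t
  have s3 : ∀ n0 n1 n2, K ≤ n0 → K ≤ n1 → K ≤ n2 →
      C4Free (fun i j => ∀ᶠ n3 in atTop, A n0 n1 n2 n3 i j) := by
    intro n0 n1 n2 h0 h1 h2
    refine c4Free_eventually (A n0 n1 n2) 3 ?_ ?_
    · intro i j hi hj n m
      fin_cases i <;> fin_cases j <;> simp [A] at hi hj ⊢
    · filter_upwards [eventually_ge_atTop K] with n3 h3 using hA _ _ _ _ h0 h1 h2 h3
  have s2 : ∀ n0 n1, K ≤ n0 → K ≤ n1 →
      C4Free (fun i j => ∀ᶠ n2 in atTop, ∀ᶠ n3 in atTop, A n0 n1 n2 n3 i j) := by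
    intro n0 n1 h0 h1
    refine c4Free_eventually (fun n2 i j => ∀ᶠ n3 in atTop, A n0 n1 n2 n3 i j) 2 ?_ ?_
    · intro i j hi hj n m
      fin_cases i <;> fin_cases j <;> simp [A] at hi hj ⊢
    · filter_upwards [eventually_ge_atTop K] with n2 h2 using s3 _ _ _ h0 h1 h2
  have s1 : ∀ n0, K ≤ n0 →
      C4Free (fun i j => ∀ᶠ n1 in atTop, ∀ᶠ n2 in atTop, ∀ᶠ n3 in atTop, A n0 n1 n2 n3 i j) := by
    intro n0 h0
    refine c4Free_eventually
      (fun n1 i j => ∀ᶠ n2 in atTop, ∀ᶠ n3 in atTop, A n0 n1 n2 n3 i j) 1 ?_ ?_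
    · intro i j hi hj n m
      fin_cases i <;> fin_cases j <;> simp [A] at hi hj ⊢
    · filter_upwards [eventually_ge_atTop K] with n1 h1 using s2 _ _ h0 h1
  have s0 : C4Free (fun i j => ∀ᶠ n0 in atTop, ∀ᶠ n1 in atTop, ∀ᶠ n2 in atTop,
      ∀ᶠ n3 in atTop, A n0 n1 n2 n3 i j) := by
    refine c4Free_eventually
      (fun n0 i j => ∀ᶠ n1 in atTop, ∀ᶠ n2 in atTop, ∀ᶠ n3 in atTop, A n0 n1 n2 n3 i j) 0 ?_ ?_
    · intro i j hi hj n m
      fin_cases i <;> fin_cases j <;> simp [A] at hi hj ⊢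
    · filter_upwards [eventually_ge_atTop K] with n0 h0 using s1 _ h0
  have heq : (fun i j => ∀ᶠ n0 in atTop, ∀ᶠ n1 in atTop, ∀ᶠ n2 in atTop,
      ∀ᶠ n3 in atTop, A n0 n1 n2 n3 i j) = sy (F G p) x t := by
    funext i j
    fin_cases i <;> fin_cases j <;> simp [A, sy, F, -eventually_atTop, Filter.eventually_const,
      (atTop_neBot (α := ℕ)).ne]
  rw [← heq]
  exact s0

/-! ### Transfer between relations -/

theorem c4Free_of_witness (N G : J → J → J → Prop)
    (hN : ∀ x : Fin 4 → J, Function.Injective x → ∀ t, C4Free (sy N x t))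
    (h1 : ∀ d e t, G d e t → ∃ s, N d e s) (h2 : ∀ d e t, ¬ G d e t → ∃ s, ¬ N d e s) :
    ∀ x : Fin 4 → J, Function.Injective x → ∀ t, C4Free (sy G x t) := by
  classical
  intro x hx t
  have h3 : ∀ i j : Fin 4, ∃ s, (N (x i) (x j) s ↔ G (x i) (x j) (t i j)) := by
    intro i j
    by_cases h : G (x i) (x j) (t i j)
    · obtain ⟨s, hs⟩ := h1 _ _ _ h
      exact ⟨s, by simp [hs, h]⟩
    · obtain ⟨s, hs⟩ := h2 _ _ _ h
      exact ⟨s, by simp [hs, h]⟩
  choose t' ht' using h3
  have h4 : sy N x t' = sy G x t := by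
    funext i j
    simp only [sy, ht']
  rw [← h4]
  exact hN x hx t'

/-- Symmetrisation of an oriented relation. -/
def sym (N : J → J → J → Prop) (v w t : J) : Prop := (v < w ∧ N v w t) ∨ (w < v ∧ N w v t)

theorem sym_c4Free (N : J → J → J → Prop)
    (hN : ∀ x : Fin 4 → J, StrictMono x → ∀ t, C4Free (sy N x t)) :
    ∀ x : Fin 4 → J, Function.Injective x → ∀ t, C4Free (sy (sym N) x t) := by
  intro x hx t
  let σ : Equiv.Perm (Fin 4) := Tuple.sort x
  have hmono : StrictMono (x ∘ σ) :=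
    (Tuple.monotone_sort x).strictMono_of_injective (hx.comp σ.injective)
  let T : Fin 4 → Fin 4 → J := fun i j => if i < j then t i j else t j i
  have hT : ∀ i j, T i j = T j i := by
    intro i j
    simp only [T]
    rcases lt_trichotomy i j with h | h | h
    · simp [h, h.le.not_gt]
    · simp [h]
    · simp [h, h.le.not_gt]
  have h1 := hN (x ∘ σ) hmono (fun i j => T (σ i) (σ j))
  have h2 : ∀ i j : Fin 4, sy (sym N) x t (σ i) (σ j) ↔
      sy N (x ∘ σ) (fun i j => T (σ i) (σ j)) i j := by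
    intro i j
    have key : ∀ k l : Fin 4, sy (sym N) x t k l ↔
        (k ≠ l ∧ sym N (x k) (x l) (T k l)) := by
      intro k l
      rcases lt_trichotomy k l with h | h | h
      · simp [sy, T, h, h.ne, h.le.not_gt]
      · simp [sy, h]
      · have : sym N (x l) (x k) (t l k) ↔ sym N (x k) (x l) (t l k) := by
          simp only [sym]; tauto
        simp [sy, T, h, h.ne', h.le.not_gt, this]
    rw [key]
    have hlt : ∀ k l : Fin 4, x (σ k) < x (σ l) ↔ k < l := fun k l => hmono.lt_iff_lt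
    simp only [sym, sy, hlt, Function.comp, hT (σ j) (σ i)]
    constructor
    · rintro ⟨_, h⟩; exact h
    · intro h
      refine ⟨?_, h⟩
      intro heq
      have := σ.injective heq
      subst this
      rcases h with h | h <;> exact absurd h.1 (lt_irrefl _)
  intro a b c d hab hac had hbc hbd hcd e1 e2 e3 e4 e5 e6
  have hs : ∀ k l, sy (sym N) x t k l ↔
      sy N (x ∘ σ) (fun i j => T (σ i) (σ j)) (σ.symm k) (σ.symm l) := by
    intro k l
    rw [← h2]; simp
  have hne : ∀ k l : Fin 4, k ≠ l → σ.symm k ≠ σ.symm l := fun k l h h' => h (σ.symm.injective h')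
  exact h1 _ _ _ _ (hne _ _ hab) (hne _ _ hac) (hne _ _ had) (hne _ _ hbc) (hne _ _ hbd)
    (hne _ _ hcd) ((hs _ _).mp e1) ((hs _ _).mp e2) ((hs _ _).mp e3) ((hs _ _).mp e4)
    (fun h => e5 ((hs _ _).mpr h)) (fun h => e6 ((hs _ _).mpr h))

end Pool.Agent.H43.TheonC4

namespace Pool.Agent.H43.TheonC4

open MeasureTheory Filter Set

/-- Two-dimensional symmetric difference. -/
def D2 (N₀ : Set (J × J × J)) (v e : J) : Set (J × J) := {q | ¬ ((v, q) ∈ N₀ ↔ (e, q) ∈ N₀)}

/-- One-dimensional symmetric difference. -/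
def D1 (N₀ : Set (J × J × J)) (d v e : J) : Set J := {t | ¬ ((d, v, t) ∈ N₀ ↔ (d, e, t) ∈ N₀)}

theorem dist_ind {α : Type*} [MeasurableSpace α] (μ : Measure α) [IsFiniteMeasure μ]
    {s t : Set α} (hs : MeasurableSet s) (ht : MeasurableSet t) {ε : ℝ}
    (h : dist (indicatorConstLp (E := ℝ) 1 hs (measure_ne_top μ s) 1)
      (indicatorConstLp 1 ht (measure_ne_top μ t) 1) < ε) :
    μ {x | ¬ (x ∈ s ↔ x ∈ t)} < ENNReal.ofReal ε := by
  rw [dist_indicatorConstLp_eq_norm, norm_indicatorConstLp one_ne_zero ENNReal.one_ne_top] at h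
  simp only [norm_one, ENNReal.toReal_one, div_one, Real.rpow_one, one_mul] at h
  have h2 : {x | ¬ (x ∈ s ↔ x ∈ t)} = symmDiff s t := by
    ext x
    simp only [mem_ofPred_eq, Set.mem_symmDiff]
    tauto
  rw [h2]
  rw [measureReal_def] at h
  exact (ENNReal.lt_ofReal_iff_toReal_lt (measure_ne_top _ _)).mpr h

theorem isSep (X : Type) [MeasurableSpace X] [MeasurableSpace.CountablyGenerated X]
    (μ : Measure X) [SFinite μ] : MeasureTheory.IsSeparable μ := inferInstance

theorem exists_dense (N₀ : Set (J × J × J)) (hN₀ : MeasurableSet N₀) (A : Set J)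
    (hA : A.Nonempty) (S : Finset J) {ε : ℝ} (hε : 0 < ε) :
    ∃ e : ℕ → J, (∀ k, e k ∈ A) ∧ ∀ v ∈ A, ∃ k, dist v (e k) < ε ∧
      volume (D2 N₀ v (e k)) < ENNReal.ofReal ε ∧
      ∀ d ∈ S, volume (D1 N₀ d v (e k)) < ENNReal.ofReal ε := by
  have : Fact ((1 : ENNReal) ≠ ⊤) := ⟨ENNReal.one_ne_top⟩
  have : MeasureTheory.IsSeparable (volume : Measure (J × J)) := isSep _ _
  have : MeasureTheory.IsSeparable (volume : Measure J) := isSep _ _
  have hs2 : ∀ v : J, MeasurableSet {q : J × J | (v, q) ∈ N₀} := fun v =>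
    measurable_prodMk_left hN₀
  have hs1 : ∀ d v : J, MeasurableSet {t : J | (d, v, t) ∈ N₀} := fun d v => by
    have : Measurable (fun t : J => (d, v, t)) :=
      measurable_const.prodMk (measurable_const.prodMk measurable_id)
    exact this hN₀
  let Φ : J → J × (Lp ℝ 1 (volume : Measure (J × J))) × (S → Lp ℝ 1 (volume : Measure J)) :=
    fun v => (v, indicatorConstLp 1 (hs2 v) (measure_ne_top _ _) 1,
      fun d => indicatorConstLp 1 (hs1 d v) (measure_ne_top _ _) 1)
  obtain ⟨T, hTA, hTc, hTd⟩ :=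
    (TopologicalSpace.IsSeparable.of_separableSpace (Φ '' A)).exists_countable_dense_subset
  have hTne : T.Nonempty := by
    obtain ⟨a, ha⟩ := hA
    have := hTd (mem_image_of_mem Φ ha)
    exact closure_nonempty_iff.mp ⟨_, this⟩
  obtain ⟨f, hf⟩ := hTc.exists_eq_range hTne
  have h1 : ∀ k, ∃ a ∈ A, Φ a = f k := by
    intro k
    have : f k ∈ T := by rw [hf]; exact mem_range_self k
    exact hTA this
  choose e he1 he2 using h1
  refine ⟨e, he1, fun v hv => ?_⟩
  have h2 := hTd (mem_image_of_mem Φ hv)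
  rw [Metric.mem_closure_iff] at h2
  obtain ⟨y, hy, hdy⟩ := h2 ε hε
  rw [hf] at hy
  obtain ⟨k, rfl⟩ := hy
  rw [← he2 k] at hdy
  rw [Prod.dist_eq, max_lt_iff, Prod.dist_eq, max_lt_iff] at hdy
  obtain ⟨e1, e2, e3⟩ := hdy
  rw [dist_pi_lt_iff hε] at e3
  exact ⟨k, e1, dist_ind _ (hs2 v) (hs2 (e k)) e2,
    fun d hd => dist_ind _ (hs1 d v) (hs1 d (e k)) (e3 ⟨d, hd⟩)⟩

end Pool.Agent.H43.TheonC4

namespace Pool.Agent.H43.TheonC4

open MeasureTheory Filter Set

/-- The pair `(d, v)` is good relative to `B`. -/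
def Good (B : Set (J × J × J)) (d v : J) : Prop := volume {t : J | (d, v, t) ∈ B} = 0

/-- The point `d` is good relative to `B`. -/
def GoodPt (B : Set (J × J × J)) (d : J) : Prop := volume {q : J × J | (d, q) ∈ B} = 0

theorem goodPt_ae {B : Set (J × J × J)} (hB : MeasurableSet B) (h0 : volume B = 0) :
    ∀ᵐ d : J, GoodPt B d := by
  have h1 : ((volume : Measure J).prod (volume : Measure (J × J))) B = 0 := h0
  rw [Measure.measure_prod_null hB] at h1
  filter_upwards [h1] with d hd using hd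

theorem good_ae {B : Set (J × J × J)} (hB : MeasurableSet B) {d : J} (hd : GoodPt B d) :
    ∀ᵐ v : J, Good B d v := by
  have h1 : ((volume : Measure J).prod (volume : Measure J)) {q : J × J | (d, q) ∈ B} = 0 := hd
  have h2 : MeasurableSet {q : J × J | (d, q) ∈ B} := measurable_prodMk_left hB
  rw [Measure.measure_prod_null h2] at h1
  filter_upwards [h1] with v hv using hv

theorem goodPt_meas {B : Set (J × J × J)} (hB : MeasurableSet B) :
    MeasurableSet {d | GoodPt B d} := by
  have h := measurable_measure_prodMk_left (ν := (volume : Measure (J × J))) hB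
  exact measurableSet_eq_fun h measurable_const

theorem good_meas {B : Set (J × J × J)} (hB : MeasurableSet B) (d : J) :
    MeasurableSet {v | Good B d v} := by
  have h2 : MeasurableSet {q : J × J | (d, q) ∈ B} := measurable_prodMk_left hB
  have h := measurable_measure_prodMk_left (ν := (volume : Measure J)) h2
  exact measurableSet_eq_fun h measurable_const

/-- Points good relative to all entries of the sequences in the list. -/
def AL (B : Set (J × J × J)) (L : List (ℕ → J)) : Set J :=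
  {v | GoodPt B v ∧ ∀ y ∈ L, ∀ l, Good B (y l) v}

theorem AL_meas {B : Set (J × J × J)} (hB : MeasurableSet B) (L : List (ℕ → J)) :
    MeasurableSet (AL B L) := by
  have : AL B L = {v | GoodPt B v} ∩ ⋂ y ∈ {y | y ∈ L}, ⋂ l, {v | Good B (y l) v} := by
    ext v
    simp [AL]
  rw [this]
  refine (goodPt_meas hB).inter (MeasurableSet.biInter ?_ fun y _ =>
    MeasurableSet.iInter fun l => good_meas hB _)
  exact (List.finite_toSet L).countable

theorem AL_ae {B : Set (J × J × J)} (hB : MeasurableSet B) (h0 : volume B = 0)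
    (L : List (ℕ → J)) (hL : ∀ y ∈ L, ∀ l, GoodPt B (y l)) : ∀ᵐ v : J, v ∈ AL B L := by
  have h1 : ∀ᵐ v : J, ∀ y ∈ {y | y ∈ L}, ∀ l, Good B (y l) v := by
    rw [ae_ball_iff (List.finite_toSet L).countable]
    intro y hy
    rw [ae_all_iff]
    intro l
    exact good_ae hB (hL y hy l)
  filter_upwards [goodPt_ae hB h0, h1] with v e1 e2 using ⟨e1, e2⟩

theorem D2_meas {N₀ : Set (J × J × J)} (hN₀ : MeasurableSet N₀) (e : J) :
    Measurable fun v => volume (D2 N₀ v e) := by
  have h1 : MeasurableSet {x : J × (J × J) | ¬ (x ∈ N₀ ↔ (e, x.2) ∈ N₀)} := by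
    have h2 : MeasurableSet {x : J × (J × J) | (e, x.2) ∈ N₀} :=
      (measurable_const.prodMk measurable_snd) hN₀
    exact (MeasurableSet.iff hN₀ h2).compl
  exact measurable_measure_prodMk_left (ν := (volume : Measure (J × J))) h1

theorem D1_meas {N₀ : Set (J × J × J)} (hN₀ : MeasurableSet N₀) (d e : J) :
    Measurable fun v => volume (D1 N₀ d v e) := by
  have h1 : MeasurableSet {x : J × J | ¬ ((d, x.1, x.2) ∈ N₀ ↔ (d, e, x.2) ∈ N₀)} := by
    have h2 : MeasurableSet {x : J × J | (d, x.1, x.2) ∈ N₀} :=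
      (measurable_const.prodMk (measurable_fst.prodMk measurable_snd)) hN₀
    have h3 : MeasurableSet {x : J × J | (d, e, x.2) ∈ N₀} :=
      (measurable_const.prodMk (measurable_const.prodMk measurable_snd)) hN₀
    exact (MeasurableSet.iff h2 h3).compl
  exact measurable_measure_prodMk_left (ν := (volume : Measure J)) h1

theorem stage {N₀ B : Set (J × J × J)} (hN₀ : MeasurableSet N₀) (hB : MeasurableSet B)
    (h0 : volume B = 0) (L : List (ℕ → J)) (hL : ∀ y ∈ L, ∀ l, GoodPt B (y l)) (n : ℕ) :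
    ∃ (e r : ℕ → J) (κ : J → ℕ), Measurable κ ∧ (∀ l, GoodPt B (e l)) ∧
      (∀ y ∈ L, ∀ l l', Good B (y l) (e l')) ∧ (∀ v, dist v (r (κ v)) < (1 / 2 : ℝ) ^ n) ∧
      ∀ v ∈ AL B L, (∃ l, r (κ v) = e l) ∧
        volume (D2 N₀ v (r (κ v))) < ENNReal.ofReal ((1 / 2 : ℝ) ^ n) ∧
        ∀ y ∈ L, ∀ l < n, volume (D1 N₀ (y l) v (r (κ v))) < ENNReal.ofReal ((1 / 2 : ℝ) ^ n) := by
  classical
  have hε : (0 : ℝ) < (1 / 2 : ℝ) ^ n := by positivity
  let S : Finset J := (L.flatMap fun y => (List.range n).map y).toFinset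
  have hA : (AL B L).Nonempty := (AL_ae hB h0 L hL).exists
  obtain ⟨e, heA, he⟩ := exists_dense N₀ hN₀ (AL B L) hA S hε
  let q : ℕ → J := TopologicalSpace.denseSeq J
  let P : J → ℕ → Prop := fun v k => v ∈ AL B L → dist v (e k) < (1 / 2 : ℝ) ^ n ∧
      volume (D2 N₀ v (e k)) < ENNReal.ofReal ((1 / 2 : ℝ) ^ n) ∧
      ∀ d ∈ S, volume (D1 N₀ d v (e k)) < ENNReal.ofReal ((1 / 2 : ℝ) ^ n)
  have hP : ∀ v, ∃ k, P v k := by
    intro v
    by_cases hv : v ∈ AL B L
    · obtain ⟨k, hk⟩ := he v hv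
      exact ⟨k, fun _ => hk⟩
    · exact ⟨0, fun h => absurd h hv⟩
  have hPm : ∀ k, MeasurableSet {v | P v k} := by
    intro k
    have h1 : MeasurableSet {v : J | dist v (e k) < (1 / 2 : ℝ) ^ n} :=
      measurableSet_lt (measurable_id.dist measurable_const) measurable_const
    have h2 : MeasurableSet {v : J | volume (D2 N₀ v (e k)) < ENNReal.ofReal ((1 / 2 : ℝ) ^ n)} :=
      measurableSet_lt (D2_meas hN₀ (e k)) measurable_const
    have h3 : MeasurableSet {v : J | ∀ d ∈ S, volume (D1 N₀ d v (e k)) <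
        ENNReal.ofReal ((1 / 2 : ℝ) ^ n)} := by
      have : {v : J | ∀ d ∈ S, volume (D1 N₀ d v (e k)) < ENNReal.ofReal ((1 / 2 : ℝ) ^ n)} =
          ⋂ d ∈ S, {v : J | volume (D1 N₀ d v (e k)) < ENNReal.ofReal ((1 / 2 : ℝ) ^ n)} := by
        ext v; simp
      rw [this]
      exact Finset.measurableSet_biInter S fun d _ =>
        measurableSet_lt (D1_meas hN₀ d (e k)) measurable_const
    exact (AL_meas hB L).imp (h1.inter (h2.inter h3))
  have hQ : ∀ v : J, ∃ k, dist v (q k) < (1 / 2 : ℝ) ^ n := by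
    intro v
    have := (TopologicalSpace.denseRange_denseSeq J).exists_dist_lt v hε
    exact this
  have hQm : ∀ k, MeasurableSet {v : J | dist v (q k) < (1 / 2 : ℝ) ^ n} := fun k =>
    measurableSet_lt (measurable_id.dist measurable_const) measurable_const
  let κ : J → ℕ := fun v => if v ∈ AL B L then 2 * Nat.find (hP v) else 2 * Nat.find (hQ v) + 1
  let r : ℕ → J := fun m => if m % 2 = 0 then e (m / 2) else q (m / 2)
  have hr0 : ∀ k, r (2 * k) = e k := by
    intro k
    simp [r]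
  have hr1 : ∀ k, r (2 * k + 1) = q k := by
    intro k
    have h1 : (2 * k + 1) % 2 ≠ 0 := by omega
    have h2 : (2 * k + 1) / 2 = k := by omega
    simp only [r, h1, if_false, h2]
  refine ⟨e, r, κ, ?_, fun l => (heA l).1, fun y hy l l' => (heA l').2 y hy l, ?_, ?_⟩
  · have m1 : Measurable fun v => Nat.find (hP v) := measurable_find hP hPm
    have m2 : Measurable fun v => Nat.find (hQ v) := measurable_find hQ hQm
    exact Measurable.ite (AL_meas hB L) ((measurable_from_top (f := fun k : ℕ => 2 * k)).comp m1)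
      ((measurable_from_top (f := fun k : ℕ => 2 * k + 1)).comp m2)
  · intro v
    by_cases hv : v ∈ AL B L
    · have h1 : κ v = 2 * Nat.find (hP v) := by simp [κ, hv]
      rw [h1, hr0]
      exact (Nat.find_spec (hP v) hv).1
    · have h1 : κ v = 2 * Nat.find (hQ v) + 1 := by simp [κ, hv]
      rw [h1, hr1]
      exact Nat.find_spec (hQ v)
  · intro v hv
    have h1 : κ v = 2 * Nat.find (hP v) := by simp [κ, hv]
    rw [h1, hr0]
    obtain ⟨h2, h3, h4⟩ := Nat.find_spec (hP v) hv
    refine ⟨⟨_, rfl⟩, h3, fun y hy l hl => h4 _ ?_⟩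
    simp only [S, List.mem_toFinset, List.mem_flatMap, List.mem_map, List.mem_range]
    exact ⟨y, hy, l, hl, rfl⟩

end Pool.Agent.H43.TheonC4

namespace Pool.Agent.H43.TheonC4

open MeasureTheory Filter Set

theorem seqs {N₀ B : Set (J × J × J)} (hN₀ : MeasurableSet N₀) (hB : MeasurableSet B)
    (h0 : volume B = 0) :
    ∃ (e r : ℕ → ℕ → J) (κ : ℕ → J → ℕ), (∀ n, Measurable (κ n)) ∧
      (∀ n l, GoodPt B (e n l)) ∧
      (∀ k n, k < n → ∀ l l', Good B (e k l) (e n l')) ∧
      (∀ n v, dist v (r n (κ n v)) < (1 / 2 : ℝ) ^ n) ∧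
      ∀ᵐ v : J, ∀ n, (∃ l, r n (κ n v) = e n l) ∧
        volume (D2 N₀ v (r n (κ n v))) < ENNReal.ofReal ((1 / 2 : ℝ) ^ n) ∧
        ∀ k < n, ∀ l < n,
          volume (D1 N₀ (e k l) v (r n (κ n v))) < ENNReal.ofReal ((1 / 2 : ℝ) ^ n) := by
  have stg : ∀ (L : {L : List (ℕ → J) // ∀ y ∈ L, ∀ l, GoodPt B (y l)}) (n : ℕ),
      ∃ x : (ℕ → J) × (ℕ → J) × (J → ℕ), Measurable x.2.2 ∧ (∀ l, GoodPt B (x.1 l)) ∧
      (∀ y ∈ L.1, ∀ l l', Good B (y l) (x.1 l')) ∧
      (∀ v, dist v (x.2.1 (x.2.2 v)) < (1 / 2 : ℝ) ^ n) ∧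
      ∀ v ∈ AL B L.1, (∃ l, x.2.1 (x.2.2 v) = x.1 l) ∧
        volume (D2 N₀ v (x.2.1 (x.2.2 v))) < ENNReal.ofReal ((1 / 2 : ℝ) ^ n) ∧
        ∀ y ∈ L.1, ∀ l < n,
          volume (D1 N₀ (y l) v (x.2.1 (x.2.2 v))) < ENNReal.ofReal ((1 / 2 : ℝ) ^ n) := by
    intro L n
    obtain ⟨e, r, κ, h⟩ := stage hN₀ hB h0 L.1 L.2 n
    exact ⟨(e, r, κ), h⟩
  choose X hX using stg
  let st : ℕ → {L : List (ℕ → J) // ∀ y ∈ L, ∀ l, GoodPt B (y l)} := fun n =>
    Nat.rec ⟨[], by simp⟩ (fun n L => ⟨(X L n).1 :: L.1, by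
      intro y hy l
      rw [List.mem_cons] at hy
      rcases hy with rfl | hy
      · exact (hX L n).2.1 l
      · exact L.2 y hy l⟩) n
  have hst : ∀ n, (st (n + 1)).1 = (X (st n) n).1 :: (st n).1 := fun n => rfl
  have hmem : ∀ k n, k < n → (X (st k) k).1 ∈ (st n).1 := by
    intro k n hkn
    induction n with
    | zero => omega
    | succ n ih =>
      rw [hst, List.mem_cons]
      rcases Nat.lt_succ_iff_lt_or_eq.mp hkn with h | h
      · exact Or.inr (ih h)
      · subst h; exact Or.inl rfl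
  refine ⟨fun n => (X (st n) n).1, fun n => (X (st n) n).2.1, fun n => (X (st n) n).2.2,
    fun n => (hX _ _).1, fun n => (hX _ _).2.1, ?_, fun n => (hX _ _).2.2.2.1, ?_⟩
  · intro k n hkn l l'
    exact (hX (st n) n).2.2.1 _ (hmem k n hkn) l l'
  · have h1 : ∀ᵐ v : J, ∀ n, v ∈ AL B (st n).1 := by
      rw [ae_all_iff]
      intro n
      exact AL_ae hB h0 _ (st n).2
    filter_upwards [h1] with v hv n
    obtain ⟨h2, h3, h4⟩ := (hX (st n) n).2.2.2.2 v (hv n)
    exact ⟨h2, h3, fun k hk l hl => h4 _ (hmem k n hk) l hl⟩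

theorem tsum_half_ne_top {f : ℕ → ENNReal} (h : ∀ n, f n ≤ ENNReal.ofReal ((1 / 2 : ℝ) ^ n)) :
    ∑' n, f n ≠ ⊤ := by
  have h1 : ∑' n, f n ≤ ∑' n, ENNReal.ofReal ((1 / 2 : ℝ) ^ n) := ENNReal.tsum_le_tsum h
  have h2 : ∑' n, ENNReal.ofReal ((1 / 2 : ℝ) ^ n) = ENNReal.ofReal (∑' n, (1 / 2 : ℝ) ^ n) :=
    (ENNReal.ofReal_tsum_of_nonneg (fun n => by positivity) summable_geometric_two).symm
  rw [h2] at h1
  exact ne_top_of_le_ne_top ENNReal.ofReal_ne_top h1

/-- The corrected relation on sample points. -/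
def Gr (N : J → J → J → Prop) (N₀ : Set (J × J × J)) (d e t : J) : Prop :=
  (∀ s, N d e s) ∨ ((∃ s, N d e s) ∧ (d, e, t) ∈ N₀)

theorem Gr_iff {N : J → J → J → Prop} {N₀ : Set (J × J × J)} {d e t : J}
    (h : (d, e, t) ∈ N₀ ↔ N d e t) : Gr N N₀ d e t ↔ (d, e, t) ∈ N₀ := by
  constructor
  · rintro (h1 | h1)
    · exact h.mpr (h1 t)
    · exact h1.2
  · intro h1
    exact Or.inr ⟨⟨t, h.mp h1⟩, h1⟩

theorem measurable_eventually {α : Type*} [MeasurableSpace α] {P : ℕ → α → Prop}
    (h : ∀ n, MeasurableSet {x | P n x}) : MeasurableSet {x | ∀ᶠ n in atTop, P n x} := by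
  have h3 : {x | ∀ᶠ n in atTop, P n x} = ⋃ n0 : ℕ, ⋂ n ∈ {n | n0 ≤ n}, {x | P n x} := by
    ext q
    simp only [eventually_atTop, mem_ofPred_eq, mem_iUnion, mem_iInter]
  rw [h3]
  exact MeasurableSet.iUnion fun n0 => MeasurableSet.biInter (to_countable _) fun n _ => h n

theorem swap_mp : MeasurePreserving (fun q : J × J × J => (q.2.1, q.1, q.2.2)) volume volume := by
  have h1 : MeasurePreserving (MeasurableEquiv.prodAssoc : (J × J) × J ≃ᵐ J × J × J)
      (((volume : Measure J).prod volume).prod volume)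
      ((volume : Measure J).prod ((volume : Measure J).prod volume)) :=
    measurePreserving_prodAssoc _ _ _
  have h2 : MeasurePreserving (Prod.map Prod.swap id : (J × J) × J → (J × J) × J)
      (((volume : Measure J).prod volume).prod volume)
      (((volume : Measure J).prod volume).prod volume) :=
    Measure.measurePreserving_swap.prod (MeasurePreserving.id _)
  exact (h1.comp h2).comp h1.symm

theorem core (N : J → J → J → Prop)
    (hNm : NullMeasurableSet {q : J × J × J | N q.1 q.2.1 q.2.2} volume)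
    (hsym : ∀ v w t, v ≠ w → N v w t → N w v t)
    (hN : ∀ x : Fin 4 → J, Function.Injective x → ∀ t, C4Free (sy N x t)) :
    ∃ N' : J → J → J → Prop, MeasurableSet {q : J × J × J | N' q.1 q.2.1 q.2.2} ∧
      (∀ v w t, N' v w t → N' w v t) ∧
      (∀ x : Fin 4 → J, Function.Injective x → ∀ t, C4Free (sy N' x t)) ∧
      ∀ᵐ q : J × J × J, (N' q.1 q.2.1 q.2.2 ↔ N q.1 q.2.1 q.2.2) := by
  obtain ⟨N₀, hNN₀, hN₀, hae⟩ := hNm.exists_measurable_superset_ae_eq
  have hbad : volume {q : J × J × J | ¬ (q ∈ N₀ ↔ N q.1 q.2.1 q.2.2)} = 0 := by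
    have h1 : ∀ᵐ q : J × J × J, (q ∈ N₀ ↔ N q.1 q.2.1 q.2.2) := by
      filter_upwards [hae] with q hq
      exact iff_of_eq hq
    exact h1
  set B : Set (J × J × J) := toMeasurable volume {q : J × J × J | ¬ (q ∈ N₀ ↔ N q.1 q.2.1 q.2.2)}
    with hBdef
  have hB : MeasurableSet B := measurableSet_toMeasurable _ _
  have hB0 : volume B = 0 := by rw [hBdef, measure_toMeasurable, hbad]
  have hBsub : ∀ d e t, (d, e, t) ∉ B → ((d, e, t) ∈ N₀ ↔ N d e t) := by
    intro d e t h
    by_contra h2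
    exact h (subset_toMeasurable _ _ h2)
  obtain ⟨e, r, κ, hκ, he, hgood, hdist, hall⟩ := seqs hN₀ hB hB0
  let p : ℕ → J → J := fun n v => r n (κ n v)
  have hp : ∀ v, Tendsto (fun n => p n v) atTop (nhds v) := by
    intro v
    rw [tendsto_iff_dist_tendsto_zero]
    refine squeeze_zero (fun n => dist_nonneg) (fun n => ?_)
      (tendsto_pow_atTop_nhds_zero_of_lt_one (r := (1 / 2 : ℝ)) (by norm_num) (by norm_num))
    rw [dist_comm]
    exact (hdist n v).le
  let G := Gr N N₀
  have hG : ∀ x : Fin 4 → J, Function.Injective x → ∀ t, C4Free (sy G x t) := by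
    refine c4Free_of_witness N G hN ?_ ?_
    · rintro d e t (h | ⟨h, -⟩)
      · exact ⟨t, h t⟩
      · exact h
    · intro d e t h
      by_contra h2
      push Not at h2
      exact h (Or.inl h2)
  -- the Borel relation
  have hpm : ∀ n, Measurable (p n) := fun n => (measurable_from_top (f := r n)).comp (hκ n)
  have hFm : MeasurableSet {q : J × J × J | F G p q.1 q.2.1 q.2.2} := by
    have h1 : ∀ n m, MeasurableSet {q : J × J × J | G (p n q.1) (p m q.2.1) q.2.2} := by
      intro n m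
      have h2 : {q : J × J × J | G (p n q.1) (p m q.2.1) q.2.2} =
          ⋃ a : ℕ, ⋃ b : ℕ, {q : J × J × J | κ n q.1 = a} ∩ {q : J × J × J | κ m q.2.1 = b} ∩
            {q : J × J × J | G (r n a) (r m b) q.2.2} := by
        ext q
        simp only [mem_ofPred_eq, mem_iUnion, mem_inter_iff, p]
        constructor
        · intro h
          exact ⟨κ n q.1, κ m q.2.1, ⟨rfl, rfl⟩, h⟩
        · rintro ⟨a, b, ⟨ha, hb⟩, h⟩
          rw [ha, hb]; exact h
      rw [h2]
      refine MeasurableSet.iUnion fun a => MeasurableSet.iUnion fun b => ?_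
      have m1 : MeasurableSet {q : J × J × J | κ n q.1 = a} :=
        ((hκ n).comp measurable_fst) (measurableSet_singleton a)
      have m2 : MeasurableSet {q : J × J × J | κ m q.2.1 = b} :=
        ((hκ m).comp (measurable_fst.comp measurable_snd)) (measurableSet_singleton b)
      have m3 : MeasurableSet {q : J × J × J | G (r n a) (r m b) q.2.2} := by
        have m4 : MeasurableSet {q : J × J × J | (r n a, r m b, q.2.2) ∈ N₀} :=
          (measurable_const.prodMk (measurable_const.prodMk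
            (measurable_snd.comp measurable_snd))) hN₀
        have m5 : {q : J × J × J | G (r n a) (r m b) q.2.2} =
            {q : J × J × J | ∀ s, N (r n a) (r m b) s} ∪
            ({q : J × J × J | ∃ s, N (r n a) (r m b) s} ∩
              {q : J × J × J | (r n a, r m b, q.2.2) ∈ N₀}) := by
          ext q; rfl
        rw [m5]
        exact (MeasurableSet.const _).union ((MeasurableSet.const _).inter m4)
      exact (m1.inter m2).inter m3
    have h3 : {q : J × J × J | F G p q.1 q.2.1 q.2.2} =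
        ⋃ n0 : ℕ, ⋂ n ∈ {n | n0 ≤ n}, ⋃ m0 : ℕ, ⋂ m ∈ {m | m0 ≤ m},
          {q : J × J × J | G (p n q.1) (p m q.2.1) q.2.2} := by
      ext q
      simp only [F, eventually_atTop, mem_ofPred_eq, mem_iUnion, mem_iInter]
    rw [h3]
    exact MeasurableSet.iUnion fun n0 => MeasurableSet.biInter (to_countable _) fun n _ =>
      MeasurableSet.iUnion fun m0 => MeasurableSet.biInter (to_countable _) fun m _ => h1 n m
  refine ⟨sym (F G p), ?_, ?_, ?_, ?_⟩
  · have h1 : MeasurableSet {q : J × J × J | q.1 < q.2.1} :=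
      measurableSet_lt measurable_fst (measurable_fst.comp measurable_snd)
    have h2 : MeasurableSet {q : J × J × J | q.2.1 < q.1} :=
      measurableSet_lt (measurable_fst.comp measurable_snd) measurable_fst
    have h3 : MeasurableSet {q : J × J × J | F G p q.2.1 q.1 q.2.2} := by
      have : Measurable fun q : J × J × J => (q.2.1, q.1, q.2.2) :=
        (measurable_fst.comp measurable_snd).prodMk
          (measurable_fst.prodMk (measurable_snd.comp measurable_snd))
      exact this hFm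
    exact (h1.inter hFm).union (h2.inter h3)
  · intro v w t h
    rcases h with h | h
    · exact Or.inr h
    · exact Or.inl h
  · exact sym_c4Free (F G p) (fun x hx t => F_c4Free G hG p hp x hx t)
  · -- almost everywhere equality
    have A1 : ∀ᵐ q : J × J × J, ∀ᶠ n in atTop, (q ∈ N₀ ↔ (p n q.1, q.2) ∈ N₀) := by
      have hm : MeasurableSet {q : J × J × J | ∀ᶠ n in atTop, (q ∈ N₀ ↔ (p n q.1, q.2) ∈ N₀)} := by
        refine measurable_eventually fun n => ?_
        have h1 : MeasurableSet {q : J × J × J | (p n q.1, q.2) ∈ N₀} :=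
          (((hpm n).comp measurable_fst).prodMk measurable_snd) hN₀
        exact MeasurableSet.iff hN₀ h1
      have h1 := (Measure.ae_prod_iff_ae_ae (μ := (volume : Measure J))
        (ν := (volume : Measure (J × J))) hm).mpr
      refine h1 ?_
      filter_upwards [hall] with v hv
      have h2 := ae_eventually_notMem (μ := (volume : Measure (J × J)))
        (s := fun n => D2 N₀ v (p n v)) (tsum_half_ne_top fun n => (hv n).2.1.le)
      filter_upwards [h2] with x hx
      filter_upwards [hx] with n hn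
      by_contra h3
      exact hn h3
    have A2 : ∀ᵐ x : J × J, ∀ k l, ∀ᶠ m in atTop,
        ((e k l, x.1, x.2) ∈ N₀ ↔ (e k l, p m x.1, x.2) ∈ N₀) := by
      rw [ae_all_iff]
      intro k
      rw [ae_all_iff]
      intro l
      have hm : MeasurableSet {x : J × J | ∀ᶠ m in atTop,
          ((e k l, x.1, x.2) ∈ N₀ ↔ (e k l, p m x.1, x.2) ∈ N₀)} := by
        refine measurable_eventually fun m => ?_
        have h1 : MeasurableSet {x : J × J | (e k l, x.1, x.2) ∈ N₀} :=
          (measurable_const.prodMk (measurable_fst.prodMk measurable_snd)) hN₀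
        have h2 : MeasurableSet {x : J × J | (e k l, p m x.1, x.2) ∈ N₀} :=
          (measurable_const.prodMk (((hpm m).comp measurable_fst).prodMk measurable_snd)) hN₀
        exact MeasurableSet.iff h1 h2
      have h1 := (Measure.ae_prod_iff_ae_ae (μ := (volume : Measure J))
        (ν := (volume : Measure J)) hm).mpr
      refine h1 ?_
      filter_upwards [hall] with w hw
      have h2 := ae_eventually_notMem (μ := (volume : Measure J))
        (s := fun m => {t | t ∈ D1 N₀ (e k l) w (p m w) ∧ (k < m ∧ l < m)})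
        (tsum_half_ne_top fun m => by
          by_cases hkl : k < m ∧ l < m
          · refine le_trans (measure_mono ?_) ((hw m).2.2 k hkl.1 l hkl.2).le
            intro t ht; exact ht.1
          · have : {t | t ∈ D1 N₀ (e k l) w (p m w) ∧ (k < m ∧ l < m)} = ∅ := by
              ext t; simp only [mem_ofPred_eq, mem_empty_iff_false, iff_false]
              exact fun h => hkl h.2
            simp only [this, measure_empty, zero_le])
      filter_upwards [h2] with t ht
      filter_upwards [ht, eventually_gt_atTop k, eventually_gt_atTop l] with m hm1 hk hl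
      by_contra h3
      exact hm1 ⟨h3, hk, hl⟩
    have A3 : ∀ᵐ t : J, ∀ k n l l', k < n → (e k l, e n l', t) ∉ B := by
      rw [ae_all_iff]; intro k
      rw [ae_all_iff]; intro n
      rw [ae_all_iff]; intro l
      rw [ae_all_iff]; intro l'
      by_cases hkn : k < n
      · have h1 : volume {t : J | (e k l, e n l', t) ∈ B} = 0 := hgood k n hkn l l'
        have h2 : ∀ᵐ t : J, ¬ (e k l, e n l', t) ∈ B := by
          rw [ae_iff]; simpa using h1
        filter_upwards [h2] with t ht _ using ht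
      · exact Eventually.of_forall fun t h => absurd h hkn
    have A2' : ∀ᵐ q : J × J × J, ∀ k l, ∀ᶠ m in atTop,
        ((e k l, q.2.1, q.2.2) ∈ N₀ ↔ (e k l, p m q.2.1, q.2.2) ∈ N₀) :=
      (Measure.quasiMeasurePreserving_snd (μ := (volume : Measure J))
        (ν := (volume : Measure (J × J)))).ae A2
    have A3' : ∀ᵐ q : J × J × J, ∀ k n l l', k < n → (e k l, e n l', q.2.2) ∉ B :=
      (Measure.quasiMeasurePreserving_snd (μ := (volume : Measure J))
        (ν := (volume : Measure (J × J)))).ae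
        ((Measure.quasiMeasurePreserving_snd (μ := (volume : Measure J))
        (ν := (volume : Measure J))).ae A3)
    have H1 : ∀ᵐ q : J × J × J, ∀ n, ∃ l, p n q.1 = e n l :=
      (Measure.quasiMeasurePreserving_fst (μ := (volume : Measure J))
        (ν := (volume : Measure (J × J)))).ae (hall.mono fun v hv n => (hv n).1)
    have H2 : ∀ᵐ q : J × J × J, ∀ n, ∃ l, p n q.2.1 = e n l :=
      (Measure.quasiMeasurePreserving_snd (μ := (volume : Measure J))
        (ν := (volume : Measure (J × J)))).ae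
        ((Measure.quasiMeasurePreserving_fst (μ := (volume : Measure J))
        (ν := (volume : Measure J))).ae (hall.mono fun v hv n => (hv n).1))
    have hA : ∀ᵐ q : J × J × J, (F G p q.1 q.2.1 q.2.2 ↔ q ∈ N₀) := by
      filter_upwards [A1, A2', A3', H1, H2] with q a1 a2 a3 h1 h2
      have h3 : ∀ n, (∀ᶠ m in atTop, G (p n q.1) (p m q.2.1) q.2.2) ↔
          (p n q.1, q.2.1, q.2.2) ∈ N₀ := by
        intro n
        obtain ⟨l, hl⟩ := h1 n
        have h4 : ∀ᶠ m in atTop, (G (p n q.1) (p m q.2.1) q.2.2 ↔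
            (p n q.1, q.2.1, q.2.2) ∈ N₀) := by
          filter_upwards [a2 n l, eventually_gt_atTop n] with m hm hnm
          obtain ⟨l', hl'⟩ := h2 m
          rw [hl]
          rw [hm, hl']
          exact Gr_iff (hBsub _ _ _ (a3 n m l l' hnm))
        rw [eventually_congr h4, eventually_const]
      have h5 : F G p q.1 q.2.1 q.2.2 ↔ ∀ᶠ n in atTop, (p n q.1, q.2.1, q.2.2) ∈ N₀ := by
        simp only [F, h3]
      rw [h5]
      have h6 : ∀ᶠ n in atTop, ((p n q.1, q.2.1, q.2.2) ∈ N₀ ↔ q ∈ N₀) := by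
        filter_upwards [a1] with n hn using hn.symm
      rw [eventually_congr h6, eventually_const]
    have hAN : ∀ᵐ q : J × J × J, (F G p q.1 q.2.1 q.2.2 ↔ N q.1 q.2.1 q.2.2) := by
      filter_upwards [hA, hae] with q h1 h2
      rw [h1]
      exact iff_of_eq h2
    have hAN' : ∀ᵐ q : J × J × J, (F G p q.2.1 q.1 q.2.2 ↔ N q.2.1 q.1 q.2.2) :=
      swap_mp.quasiMeasurePreserving.ae hAN
    have hne : ∀ᵐ q : J × J × J, q.1 ≠ q.2.1 := by
      have hm : MeasurableSet {q : J × J × J | q.1 ≠ q.2.1} :=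
        (measurableSet_eq_fun measurable_fst (measurable_fst.comp measurable_snd)).compl
      have h1 := (Measure.ae_prod_iff_ae_ae (μ := (volume : Measure J))
        (ν := (volume : Measure (J × J))) hm).mpr
      refine h1 (Eventually.of_forall fun v => ?_)
      have h2 : ∀ᵐ w : J, v ≠ w := by
        have h3 : (volume : Measure J) {v} = 0 := measure_singleton v
        rw [ae_iff]
        have h4 : {w : J | ¬ v ≠ w} = {v} := by
          ext w; simp [eq_comm]
        rw [h4]; exact h3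
      exact (Measure.quasiMeasurePreserving_fst (μ := (volume : Measure J))
        (ν := (volume : Measure J))).ae h2
    filter_upwards [hAN, hAN', hne] with q h1 h2 h3
    rcases lt_or_gt_of_ne h3 with h | h
    · rw [← h1]
      simp [sym, h, h.le.not_gt]
    · have h4 : N q.1 q.2.1 q.2.2 ↔ N q.2.1 q.1 q.2.2 :=
        ⟨hsym _ _ _ h3, hsym _ _ _ h3.symm⟩
      rw [h4, ← h2]
      simp [sym, h, h.le.not_gt]

end Pool.Agent.H43.TheonC4
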